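import Pool.Agent.Helper75.KS.GoalsA

namespace Pool.Agent.Helper49.KS

open MeasureTheory Filter Topology Set Finset
open Pool.Agent.Helper44.KS Pool.Agent.Helper75.KS

lemma dist_self {c : ℝ} (Z : KSys c) (p : Fin Z.n) : Z.dist p p = 0 := by
  unfold KSys.dist
  simp

lemma dist_comm {c : ℝ} (Z : KSys c) (p q : Fin Z.n) : Z.dist p q = Z.dist q p := by
  unfold KSys.dist
  simp only [abs_sub_comm]

lemma prob_add {c : ℝ} (Z : KSys c) (p q : Fin Z.n) (hpq : p ≠ q) :
    Z.μ.real {d | d p < d q} + Z.μ.real {d | d q < d p} = 1 := by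
  have hm : MeasurableSet {d : Fin Z.n → ℝ | d q < d p} :=
    measurableSet_lt (measurable_pi_apply q) (measurable_pi_apply p)
  have hd : Disjoint {d : Fin Z.n → ℝ | d p < d q} {d | d q < d p} := by
    rw [Set.disjoint_left]
    intro d (h1 : d p < d q) (h2 : d q < d p)
    exact lt_asymm h1 h2
  rw [← measureReal_union hd hm]
  have h1 : (({d : Fin Z.n → ℝ | d p < d q} : Set (Fin Z.n → ℝ)) ∪
      ({d | d q < d p} : Set (Fin Z.n → ℝ)) : Set (Fin Z.n → ℝ)) =ᵐ[Z.μ] Set.univ := by
    rw [eventuallyEq_univ]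
    filter_upwards [Z.noties p q hpq] with d hd
    rcases lt_or_gt_of_ne hd with h | h
    · exact Or.inl h
    · exact Or.inr h
  rw [measureReal_congr h1]
  simp

/-- CLU -/
theorem clu (h1 : PigStmt) (h2 : TraStmt) : CluStmt := by
  classical
  intro c C θ hc hC hθ
  obtain ⟨M, hM⟩ := exists_nat_gt (4 * (2 * C + 7 + 10 / (c * θ)) ^ 2 / c ^ 2)
  rw [div_lt_iff₀ (by positivity)] at hM
  refine ⟨2 ^ (2 ^ M), ?_⟩
  intro Z
  set fam : Finset (Finset (Fin Z.n)) := (Z.W C).powerset.filter
    (fun Q => ∀ p ∈ Q, ∀ q ∈ Q, p ≠ q → θ ≤ Z.dist p q) with hfam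
  have hne : fam.Nonempty := ⟨∅, by simp [hfam]⟩
  obtain ⟨Q, hQ, hmax⟩ := Finset.exists_max_image fam Finset.card hne
  rw [hfam, Finset.mem_filter, Finset.mem_powerset] at hQ
  refine ⟨Q, hQ.1, ?_, ?_⟩
  · by_contra hcon
    push Not at hcon
    obtain ⟨z, hz, hzz⟩ := h2 (Fin Z.n) (fun p q => 1 / 2 < Z.μ.real {d | d p < d q}) Q (2 ^ M)
      hcon.le (by
        intro p _ q _ hpq
        have h3 := prob_add Z p q hpq
        have h4 := Z.nobal p q hpq
        by_contra hno
        push Not at hno
        have h5 : Z.μ.real {d | d p < d q} = 1 / 2 := by linarith [hno.1, hno.2]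
        rw [h5] at h4
        simp at h4
        linarith)
    have h3 := h1 c Z C θ M z hc hC hθ (by
      intro i hi
      have := hQ.1 (hz i hi)
      unfold KSys.W at this
      rw [Finset.mem_filter] at this
      exact this.2) (by
      intro i j hij hj
      exact ⟨(hzz i j hij hj).1, (hzz i j hij hj).2,
        hQ.2 _ (hz i (hij.trans hj)) _ (hz j hj) (hzz i j hij hj).1⟩)
    linarith
  · intro p hp
    by_cases hpQ : p ∈ Q
    · exact ⟨p, hpQ, by rw [dist_self]; exact hθ⟩
    · by_contra hcon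
      push Not at hcon
      have h3 : insert p Q ∈ fam := by
        rw [hfam, Finset.mem_filter, Finset.mem_powerset]
        refine ⟨Finset.insert_subset hp hQ.1, ?_⟩
        intro a ha b hb hab
        rw [Finset.mem_insert] at ha hb
        rcases ha with rfl | ha <;> rcases hb with rfl | hb
        · exact absurd rfl hab
        · exact hcon b hb
        · rw [dist_comm]; exact hcon a ha
        · exact hQ.2 a ha b hb hab
      have h4 := hmax _ h3
      rw [Finset.card_insert_of_notMem hpQ] at h4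
      omega

end Pool.Agent.Helper49.KS
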