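import Pool.Agent.Helper49.KS.Cells

/-!
The construction of the chain.
-/

set_option autoImplicit false

namespace Pool.Agent.Helper49.KS

open scoped InnerProductSpace
open MeasureTheory

variable {X : Type*} [MeasurableSpace X] {μ : Measure X}

/-- A finite increasing sequence of measurable sets. -/
inductive Pt (A : Set X) : Set X → Set (Set X) → Prop
  | nil : MeasurableSet A → Pt A A {A}
  | step {B B' : Set X} {D : Set (Set X)} : Pt A B D → B ⊆ B' → MeasurableSet B' →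
      Pt A B' (insert B' D)

namespace Pt

variable {A B B' : Set X} {D D' : Set (Set X)}

lemma sub (p : Pt A B D) : A ⊆ B := by
  induction p with
  | nil _ => exact le_rfl
  | step _ h _ ih => exact ih.trans h

lemma mem_r (p : Pt A B D) : B ∈ D := by
  cases p with
  | nil _ => exact Set.mem_singleton _
  | step _ h _ => exact Set.mem_insert _ _

lemma mem_l (p : Pt A B D) : A ∈ D := by
  induction p with
  | nil _ => exact Set.mem_singleton _
  | step _ h _ ih => exact Set.mem_insert_of_mem _ ih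

lemma bd (p : Pt A B D) : ∀ E ∈ D, A ⊆ E ∧ E ⊆ B ∧ MeasurableSet E := by
  induction p with
  | nil h => intro E hE; rw [Set.mem_singleton_iff] at hE; subst hE; exact ⟨le_rfl, le_rfl, h⟩
  | @step B B' D p h h' ih =>
    intro E hE
    rcases Set.mem_insert_iff.mp hE with h1 | h1
    · subst h1; exact ⟨p.sub.trans h, le_rfl, h'⟩
    · exact ⟨(ih E h1).1, (ih E h1).2.1.trans h, (ih E h1).2.2⟩

lemma meas_l (p : Pt A B D) : MeasurableSet A := (p.bd A p.mem_l).2.2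

lemma meas_r (p : Pt A B D) : MeasurableSet B := (p.bd B p.mem_r).2.2

lemma chain (p : Pt A B D) : IsChain (· ⊆ ·) D := by
  induction p with
  | nil h => exact Set.subsingleton_singleton.isChain
  | @step B B' D p h h' ih =>
    apply ih.insert
    intro E hE _
    exact Or.inr ((p.bd E hE).2.1.trans h)

lemma countable (p : Pt A B D) : D.Countable := by
  induction p with
  | nil h => exact Set.countable_singleton _
  | @step B B' D p h h' ih => exact ih.insert _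

lemma trans (p : Pt A B D) (q : Pt B B' D') : Pt A B' (D' ∪ D) := by
  induction q with
  | nil h =>
    have : ({B} : Set (Set X)) ∪ D = D := by
      rw [Set.union_eq_right, Set.singleton_subset_iff]; exact p.mem_r
    rwa [this]
  | @step E E' D' q h h' ih =>
    rw [Set.insert_union]
    exact Pt.step ih h h'

end Pt

variable {H : Type*} [NormedAddCommGroup H] [InnerProductSpace ℂ H] [CompleteSpace H]

/-- the subspace of `H` attached to a set -/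
noncomputable def Mc (A₀ : Submodule ℂ H) (S : Lp ℂ 2 μ →L[ℂ] H) (A : Set X) : Submodule ℂ H :=
  im A₀ S (La μ A)

variable {A₀ : Submodule ℂ H}

lemma Mc_mono {S : Lp ℂ 2 μ →L[ℂ] H} {A B : Set X} (h : A ⊆ B) : Mc A₀ S A ≤ Mc A₀ S B :=
  im_mono (La_mono h)

lemma tail_small (hA₀ : IsClosed (A₀ : Set H)) {S : Lp ℂ 2 μ →L[ℂ] H} {c : ℝ} (hc : 0 < c) (hS : Below A₀ S c)
    {B : Set X} (hB : MeasurableSet B) (e : H) (ε : ℝ) (hε : 0 < ε) :
    ∃ τ > 0, ∀ A : Set X, MeasurableSet A → A ⊆ B → μ (B \ A) ≤ ENNReal.ofReal τ →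
      ‖inc (Mc A₀ S A) (Mc A₀ S B) e‖ ≤ ε := by
  obtain ⟨a, ha, w, hw, hwe⟩ := mem_im.mp (pj_mem' (im_closed hA₀ hc hS (La_closed (μ := μ) hB)) e)
  set η := ε / (1 + ‖S‖) with hη
  have hS0 := norm_nonneg S
  have hη0 : 0 < η := by positivity
  obtain ⟨τ, hτ, h1⟩ := (Lp.memLp w).eLpNorm_indicator_le (by norm_num) (by norm_num) hη0
  refine ⟨τ, hτ, ?_⟩
  intro A hA hAB hμ
  have h2 := est_last (S := S) (La_closed (μ := μ) hA) (La_mono hAB) e a ha w hw hwe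
  have h3 : ‖inc (La μ A) (La μ B) w‖ ≤ η := by
    rw [norm_inc_La hA hB hAB]
    have := h1 _ (hB.diff hA) hμ
    exact ENNReal.toReal_le_of_le_ofReal hη0.le this
  calc ‖inc (Mc A₀ S A) (Mc A₀ S B) e‖ ≤ ‖S‖ * ‖inc (La μ A) (La μ B) w‖ := h2
    _ ≤ ‖S‖ * η := by gcongr
    _ ≤ (1 + ‖S‖) * η := by gcongr; linarith
    _ = ε := by rw [hη]; field_simp

section main

variable [IsFiniteMeasure μ]

lemma iter (hA₀ : IsClosed (A₀ : Set H)) {S : Lp ℂ 2 μ →L[ℂ] H} {c C : ℝ} (hc : 0 < c) (hS : Below A₀ S c)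
    (hC : ‖S‖ ≤ C) {A B : Set X} (hA : MeasurableSet A) (hB : MeasurableSet B) (hAB : A ⊆ B)
    (e h : H) (κ : ℝ) (hκ : 0 ≤ κ) (F : Finset (ℂ × ℂ))
    (hF1 : ∀ p ∈ F, ‖p.1‖ ^ 2 + ‖p.2‖ ^ 2 = 1)
    (hF : ∀ a b : ℂ, ∃ p ∈ F, ‖p.1 * a - p.2 * b‖ ^ 2 ≤ κ * (‖a‖ ^ 2 + ‖b‖ ^ 2)) (j : ℕ) :
    ∃ (A' : Set X) (D : Set (Set X)), Pt A A' D ∧ A' ⊆ B ∧
      μ.real (B \ A') ≤ (1 - 1 / (F.card : ℝ)) ^ j * μ.real (B \ A) ∧
      ∃ r, Par ((fun E => Mc A₀ S E) '' D) e h (Mc A₀ S A) (Mc A₀ S A') r ∧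
        r ≤ (κ * C ^ 2 / c ^ 2) *
          (‖inc (Mc A₀ S A) (Mc A₀ S A') e‖ ^ 2 + ‖inc (Mc A₀ S A) (Mc A₀ S A') h‖ ^ 2) := by
  have hFc : 1 ≤ (F.card : ℝ) := by
    obtain ⟨p, hp, _⟩ := hF 0 0
    have : 0 < F.card := Finset.card_pos.mpr ⟨p, hp⟩
    exact_mod_cast this
  have hF0 : 0 < (F.card : ℝ) := by linarith
  have hq : 0 ≤ 1 - 1 / (F.card : ℝ) := by
    have : 1 / (F.card : ℝ) ≤ 1 := by rw [div_le_one hF0]; exact hFc
    linarith
  induction j with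
  | zero =>
    refine ⟨A, {A}, Pt.nil hA, hAB, by simp, 0, ?_, ?_⟩
    · exact Par.nil ⟨A, rfl, rfl⟩
    · simp [inc_self]
  | succ j ih =>
    obtain ⟨A', D, p, h1, h2, r, par, hr⟩ := ih
    have hA' := p.meas_r
    obtain ⟨q, hq1, D1, hD1, hD1R, hD1m, hpt⟩ := piece_exists (μ := μ) (hB.diff hA')
      (av A₀ S (La μ A') e) (av A₀ S (La μ A') h) κ F hF
    have hsub : A' ⊆ A' ∪ D1 := Set.subset_union_left
    have hm : MeasurableSet (A' ∪ D1) := hA'.union hD1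
    have hdiff : (A' ∪ D1) \ A' = D1 := by
      ext x
      constructor
      · rintro ⟨h3 | h3, h4⟩
        · exact absurd h3 h4
        · exact h3
      · intro h3
        exact ⟨Or.inr h3, (hD1R h3).2⟩
    refine ⟨A' ∪ D1, insert (A' ∪ D1) D, Pt.step p hsub hm, ?_, ?_, ?_⟩
    · exact Set.union_subset h1 (fun x hx => (hD1R hx).1)
    · have e1 : B \ (A' ∪ D1) = (B \ A') \ D1 := by rw [Set.diff_diff]
      have e2 : μ.real (B \ (A' ∪ D1)) = μ.real (B \ A') - μ.real D1 := by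
        rw [e1, measureReal_diff hD1R hD1]
      have e3 : μ.real (B \ A') / F.card ≤ μ.real D1 := by
        rw [div_le_iff₀ hF0]; linarith
      have e4 : μ.real (B \ (A' ∪ D1)) ≤ (1 - 1 / (F.card : ℝ)) * μ.real (B \ A') := by
        rw [e2, sub_mul, one_mul, one_div, inv_mul_eq_div]; linarith
      calc μ.real (B \ (A' ∪ D1)) ≤ (1 - 1 / (F.card : ℝ)) * μ.real (B \ A') := e4
        _ ≤ (1 - 1 / (F.card : ℝ)) * ((1 - 1 / (F.card : ℝ)) ^ j * μ.real (B \ A)) := by gcongr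
        _ = (1 - 1 / (F.card : ℝ)) ^ (j + 1) * μ.real (B \ A) := by ring
    · refine ⟨r + ‖inc (Mc A₀ S A') (Mc A₀ S (A' ∪ D1)) (q.1 • e - q.2 • h)‖ ^ 2, ?_, ?_⟩
      · refine Par.step q.1 q.2 (par.mono ?_) (Mc_mono hsub) ?_ (hF1 q hq1)
        · exact Set.image_mono (Set.subset_insert _ _)
        · exact ⟨A' ∪ D1, Set.mem_insert _ _, rfl⟩
      · have e1 := est_rel hA₀ hc hS hC (La_closed (μ := μ) hA') (La_closed (μ := μ) hm)
          (La_mono hsub) e h q.1 q.2 κ hκ (rel_La hA' hm hsub _ _ q.1 q.2 κ (by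
            rw [hdiff]; exact hpt))
        have e2 := inc_pyth (Mc_mono (A₀ := A₀) (S := S) p.sub) (Mc_mono (A₀ := A₀) (S := S) hsub) e
        have e3 := inc_pyth (Mc_mono (A₀ := A₀) (S := S) p.sub) (Mc_mono (A₀ := A₀) (S := S) hsub) h
        rw [e2, e3]
        have e4 : ‖inc (Mc A₀ S A') (Mc A₀ S (A' ∪ D1)) (q.1 • e - q.2 • h)‖ ^ 2 ≤
            (κ * C ^ 2 / c ^ 2) * (‖inc (Mc A₀ S A') (Mc A₀ S (A' ∪ D1)) e‖ ^ 2 +
              ‖inc (Mc A₀ S A') (Mc A₀ S (A' ∪ D1)) h‖ ^ 2) := e1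
        linarith

lemma gap (hA₀ : IsClosed (A₀ : Set H)) {S : Lp ℂ 2 μ →L[ℂ] H} {c : ℝ} (hc : 0 < c) (hS : Below A₀ S c)
    {A B : Set X} (hA : MeasurableSet A) (hB : MeasurableSet B) (hAB : A ⊆ B)
    (e h : H) (ε : ℝ) (hε : 0 < ε) :
    ∃ D : Set (Set X), Pt A B D ∧ ∃ r ≤ ε, Par ((fun E => Mc A₀ S E) '' D) e h (Mc A₀ S A) (Mc A₀ S B) r := by
  have hS0 := norm_nonneg S
  set T := 1 + ‖e‖ ^ 2 + ‖h‖ ^ 2 with hT
  have hT0 : 0 < T := by positivity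
  set C := 1 + ‖S‖ with hC
  have hC0 : 0 < C := by positivity
  set κ := ε * c ^ 2 / (2 * C ^ 2 * T) with hκ
  have hκ0 : 0 < κ := by positivity
  obtain ⟨F, hF1, hF⟩ := net_exists κ hκ0
  obtain ⟨τ, hτ, htail⟩ := tail_small (μ := μ) hA₀ hc hS hB e (Real.sqrt (ε / 2)) (by positivity)
  have hFc : 1 ≤ (F.card : ℝ) := by
    obtain ⟨p, hp, _⟩ := hF 0 0
    have : 0 < F.card := Finset.card_pos.mpr ⟨p, hp⟩
    exact_mod_cast this
  have hF0 : 0 < (F.card : ℝ) := by linarith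
  have hq : 0 ≤ 1 - 1 / (F.card : ℝ) := by
    have : 1 / (F.card : ℝ) ≤ 1 := by rw [div_le_one hF0]; exact hFc
    linarith
  have hq1 : 1 - 1 / (F.card : ℝ) < 1 := by
    have : 0 < 1 / (F.card : ℝ) := by positivity
    linarith
  obtain ⟨j, hj⟩ : ∃ j : ℕ, (1 - 1 / (F.card : ℝ)) ^ j * μ.real (B \ A) ≤ τ := by
    have h1 := (tendsto_pow_atTop_nhds_zero_of_lt_one hq hq1).mul_const (μ.real (B \ A))
    rw [zero_mul] at h1
    exact (h1.eventually_le_const hτ).exists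
  obtain ⟨A', D, p, h1, h2, r, par, hr⟩ := iter (μ := μ) hA₀ hc hS (C := C) (by linarith) hA hB hAB e h
    κ hκ0.le F hF1 hF j
  have hμ : μ (B \ A') ≤ ENNReal.ofReal τ := by
    rw [← ofReal_measureReal (measure_ne_top μ _)]
    exact ENNReal.ofReal_le_ofReal (h2.trans hj)
  have h3 := htail A' p.meas_r h1 hμ
  refine ⟨insert B D, Pt.step p h1 hB, r + ‖inc (Mc A₀ S A') (Mc A₀ S B) ((1 : ℂ) • e - (0 : ℂ) • h)‖ ^ 2,
    ?_, ?_⟩
  · have e1 : ‖inc (Mc A₀ S A) (Mc A₀ S A') e‖ ^ 2 + ‖inc (Mc A₀ S A) (Mc A₀ S A') h‖ ^ 2 ≤ T := by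
      have f1 := inc_norm_le (Mc_mono (A₀ := A₀) (S := S) p.sub) e
      have f2 := inc_norm_le (Mc_mono (A₀ := A₀) (S := S) p.sub) h
      have f3 := pow_le_pow_left₀ (norm_nonneg _) f1 2
      have f4 := pow_le_pow_left₀ (norm_nonneg _) f2 2
      rw [hT]; linarith
    have e2 : r ≤ ε / 2 := by
      calc r ≤ (κ * C ^ 2 / c ^ 2) * T := hr.trans (by gcongr)
        _ = ε / 2 := by rw [hκ]; field_simp
    have e3 : ‖inc (Mc A₀ S A') (Mc A₀ S B) ((1 : ℂ) • e - (0 : ℂ) • h)‖ ^ 2 ≤ ε / 2 := by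
      rw [one_smul, zero_smul, sub_zero, ← Real.sq_sqrt (show 0 ≤ ε / 2 by positivity)]
      exact pow_le_pow_left₀ (norm_nonneg _) h3 2
    linarith
  · refine Par.step 1 0 (par.mono ?_) (Mc_mono h1) ?_ (by simp)
    · exact Set.image_mono (Set.subset_insert _ _)
    · exact ⟨B, Set.mem_insert _ _, rfl⟩

lemma refine_path (hA₀ : IsClosed (A₀ : Set H)) {S : Lp ℂ 2 μ →L[ℂ] H} {c : ℝ} (hc : 0 < c) (hS : Below A₀ S c)
    (e h : H) {A B : Set X} {D : Set (Set X)} (p : Pt A B D) : ∀ ε > 0,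
    ∃ D' : Set (Set X), D ⊆ D' ∧ Pt A B D' ∧
      ∃ r ≤ ε, Par ((fun E => Mc A₀ S E) '' D') e h (Mc A₀ S A) (Mc A₀ S B) r := by
  induction p with
  | nil hA =>
    intro ε hε
    exact ⟨{A}, le_rfl, Pt.nil hA, 0, hε.le, Par.nil ⟨A, rfl, rfl⟩⟩
  | @step B B' D p h1 h2 ih =>
    intro ε hε
    obtain ⟨D1, a1, a2, r1, a3, a4⟩ := ih (ε / 2) (by positivity)
    obtain ⟨D2, b1, r2, b2, b3⟩ := gap (μ := μ) hA₀ hc hS p.meas_r h2 h1 e h (ε / 2) (by positivity)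
    refine ⟨D2 ∪ D1, ?_, a2.trans b1, r1 + r2, by linarith, ?_⟩
    · rw [Set.insert_subset_iff]
      exact ⟨Or.inl b1.mem_r, a1.trans Set.subset_union_right⟩
    · exact (a4.mono (Set.image_mono Set.subset_union_right)).trans
        (b3.mono (Set.image_mono Set.subset_union_left))

omit [IsFiniteMeasure μ] in
lemma Mc_empty (A₀ : Submodule ℂ H) (S : Lp ℂ 2 μ →L[ℂ] H) : Mc A₀ S ∅ = A₀ := by
  apply le_antisymm
  · intro v hv
    obtain ⟨a, ha, w, hw, rfl⟩ := mem_im.mp hv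
    have : w = 0 := by
      rw [Lp.eq_zero_iff_ae_eq_zero]
      filter_upwards [mem_La.mp hw] with x h1
      exact h1 (Set.notMem_empty x)
    rw [this, map_zero, add_zero]
    exact ha
  · exact im_base

omit [IsFiniteMeasure μ] in
lemma mem_La_univ (w : Lp ℂ 2 μ) : w ∈ La μ (Set.univ : Set X) := by
  rw [mem_La]
  filter_upwards with x h1
  exact absurd (Set.mem_univ x) h1

/-- The main construction. -/
theorem exists_chain [TopologicalSpace.SeparableSpace H] (hA₀ : IsClosed (A₀ : Set H))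
    {S : Lp ℂ 2 μ →L[ℂ] H} {c : ℝ} (hc : 0 < c) (hS : Below A₀ S c) :
    ∃ C : Set (Submodule ℂ H), C.Countable ∧ IsChain (· ≤ ·) C ∧
      (∀ M ∈ C, ∃ A : Set X, MeasurableSet A ∧ M = Mc A₀ S A) ∧
      Mc A₀ S Set.univ ∈ C ∧ A₀ ∈ C ∧
      ∀ Y Z : H →L[ℂ] H, Comm C Y → Comm C Z → ∀ v,
        Y (Z (inc A₀ (Mc A₀ S Set.univ) v)) = Z (Y (inc A₀ (Mc A₀ S Set.univ) v)) := by
  set d := TopologicalSpace.denseSeq H with hd
  set e : ℕ → H := fun n => d (Nat.unpair (Nat.unpair n).1).1 with he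
  set h : ℕ → H := fun n => d (Nat.unpair (Nat.unpair n).1).2 with hh
  set ε : ℕ → ℝ := fun n => 1 / ((Nat.unpair n).2 + 1 : ℝ) with hε
  have hε0 : ∀ n, 0 < ε n := fun n => by positivity
  have hD0 : Pt (∅ : Set X) Set.univ (insert Set.univ {∅}) :=
    Pt.step (Pt.nil MeasurableSet.empty) (Set.empty_subset _) MeasurableSet.univ
  have hstep : ∀ n, ∀ D : {D : Set (Set X) // Pt ∅ Set.univ D}, ∃ D' : {D : Set (Set X) // Pt ∅ Set.univ D},
      D.1 ⊆ D'.1 ∧ ∃ r ≤ ε n, Par ((fun E => Mc A₀ S E) '' D'.1) (e n) (h n) (Mc A₀ S ∅)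
        (Mc A₀ S Set.univ) r := by
    intro n D
    obtain ⟨D', h1, h2, r, h3, h4⟩ := refine_path (μ := μ) hA₀ hc hS (e n) (h n) D.2 (ε n) (hε0 n)
    exact ⟨⟨D', h2⟩, h1, r, h3, h4⟩
  choose nx hn1 hn2 using hstep
  let D : ℕ → {D : Set (Set X) // Pt ∅ Set.univ D} := fun n =>
    Nat.rec ⟨_, hD0⟩ (fun n D => nx n D) n
  have hDs : ∀ n, D (n + 1) = nx n (D n) := fun n => rfl
  have hmono : Monotone (fun n => (D n).1) := by
    apply monotone_nat_of_le_succ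
    intro n
    show (D n).1 ⊆ (D (n + 1)).1
    rw [hDs]
    exact hn1 n (D n)
  set DD : Set (Set X) := ⋃ n, (D n).1 with hDD
  have hDDc : IsChain (· ⊆ ·) DD := by
    intro A hA B hB hne
    obtain ⟨n, hn⟩ := Set.mem_iUnion.mp hA
    obtain ⟨m, hm⟩ := Set.mem_iUnion.mp hB
    have h1 := hmono (le_max_left n m) hn
    have h2 := hmono (le_max_right n m) hm
    exact (D (max n m)).2.chain h1 h2 hne
  have hCc : IsChain (· ≤ ·) ((fun E => Mc A₀ S E) '' DD) := by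
    rintro _ ⟨A, hA, rfl⟩ _ ⟨B, hB, rfl⟩ _
    rcases hDDc.total hA hB with h1 | h1
    · exact Or.inl (Mc_mono h1)
    · exact Or.inr (Mc_mono h1)
  refine ⟨(fun E => Mc A₀ S E) '' DD, ?_, hCc, ?_, ?_, ?_, ?_⟩
  · exact (Set.countable_iUnion (fun n => (D n).2.countable)).image _
  · rintro _ ⟨A, hA, rfl⟩
    obtain ⟨n, hn⟩ := Set.mem_iUnion.mp hA
    exact ⟨A, ((D n).2.bd A hn).2.2, rfl⟩
  · exact ⟨Set.univ, Set.mem_iUnion.mpr ⟨0, (D 0).2.mem_r⟩, rfl⟩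
  · exact ⟨∅, Set.mem_iUnion.mpr ⟨0, (D 0).2.mem_l⟩, Mc_empty A₀ S⟩
  · intro Y Z hY hZ v
    have key := comm_of_par hCc (M := Mc A₀ S ∅) (N := Mc A₀ S Set.univ) ?_ Y Z hY hZ v
    · rwa [Mc_empty] at key
    apply par_of_dense (TopologicalSpace.denseRange_denseSeq H)
    rintro _ ⟨i, rfl⟩ _ ⟨j, rfl⟩ δ hδ
    obtain ⟨k, hk⟩ := exists_nat_one_div_lt hδ
    set n := Nat.pair (Nat.pair i j) k with hn
    obtain ⟨r, hr, par⟩ := hn2 n (D n)
    rw [← hDs] at par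
    have e1 : e n = d i := by simp [he, hn]
    have e2 : h n = d j := by simp [hh, hn]
    have e3 : ε n = 1 / (k + 1 : ℝ) := by simp [hε, hn]
    rw [e1, e2] at par
    rw [e3] at hr
    exact ⟨r, hr.trans hk.le, par.mono (Set.image_mono (Set.subset_iUnion _ (n + 1)))⟩

end main

end Pool.Agent.Helper49.KS
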