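import Pool.Agent.Helper49.KS.Est

/-!
Subspaces of `L²` of functions supported in a set, and the choice of a piece of a set on which two
functions are nearly parallel.
-/

set_option autoImplicit false

namespace Pool.Agent.Helper49.KS

open scoped InnerProductSpace
open MeasureTheory

/-- A finite net of the unit sphere of `ℂ²`. -/
lemma net_exists (η : ℝ) (hη : 0 < η) : ∃ F : Finset (ℂ × ℂ),
    (∀ p ∈ F, ‖p.1‖ ^ 2 + ‖p.2‖ ^ 2 = 1) ∧
    ∀ a b : ℂ, ∃ p ∈ F, ‖p.1 * a - p.2 * b‖ ^ 2 ≤ η * (‖a‖ ^ 2 + ‖b‖ ^ 2) := by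
  set Sph : Set (ℂ × ℂ) := {p | ‖p.1‖ ^ 2 + ‖p.2‖ ^ 2 = 1} with hSph
  have hcl : IsClosed Sph := by
    apply isClosed_eq
    · fun_prop
    · fun_prop
  have hbd : Bornology.IsBounded Sph := by
    refine (Metric.isBounded_closedBall (x := (0 : ℂ × ℂ)) (r := 1)).subset ?_
    intro p hp
    have hp' : ‖p.1‖ ^ 2 + ‖p.2‖ ^ 2 = 1 := hp
    rw [mem_closedBall_zero_iff, Prod.norm_def, sup_le_iff]
    constructor
    · nlinarith [norm_nonneg p.1, norm_nonneg p.2]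
    · nlinarith [norm_nonneg p.1, norm_nonneg p.2]
  have hcpt : IsCompact Sph := Metric.isCompact_of_isClosed_isBounded hcl hbd
  set δ := Real.sqrt (η / 2) with hδ
  have hδ0 : 0 < δ := by positivity
  have hδ2 : δ ^ 2 = η / 2 := Real.sq_sqrt (by positivity)
  obtain ⟨t, ht1, ht2, ht3⟩ := hcpt.finite_cover_balls hδ0
  refine ⟨ht2.toFinset, ?_, ?_⟩
  · intro p hp
    exact ht1 (by simpa using hp)
  · have hnear : ∀ q ∈ Sph, ∃ p ∈ t, ‖p.1 - q.1‖ ≤ δ ∧ ‖p.2 - q.2‖ ≤ δ := by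
      intro q hq
      obtain ⟨p, hp1, hp2⟩ := Set.mem_iUnion₂.mp (ht3 hq)
      rw [Metric.mem_ball, dist_comm, dist_eq_norm, Prod.norm_def] at hp2
      exact ⟨p, hp1, (le_max_left _ _).trans hp2.le, (le_max_right _ _).trans hp2.le⟩
    have hbound : ∀ q ∈ Sph, ∀ a b : ℂ, q.1 * a - q.2 * b = 0 →
        ∃ p ∈ ht2.toFinset, ‖p.1 * a - p.2 * b‖ ^ 2 ≤ η * (‖a‖ ^ 2 + ‖b‖ ^ 2) := by
      intro q hq a b hab
      obtain ⟨p, hp1, hp2, hp3⟩ := hnear q hq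
      refine ⟨p, by simpa using hp1, ?_⟩
      have h1 : p.1 * a - p.2 * b = (p.1 - q.1) * a - (p.2 - q.2) * b := by
        have : (p.1 - q.1) * a - (p.2 - q.2) * b = p.1 * a - p.2 * b - (q.1 * a - q.2 * b) := by
          ring
        rw [this, hab, sub_zero]
      have h2 : ‖p.1 * a - p.2 * b‖ ≤ δ * (‖a‖ + ‖b‖) := by
        rw [h1]
        calc _ ≤ ‖(p.1 - q.1) * a‖ + ‖(p.2 - q.2) * b‖ := norm_sub_le _ _
          _ = ‖p.1 - q.1‖ * ‖a‖ + ‖p.2 - q.2‖ * ‖b‖ := by rw [norm_mul, norm_mul]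
          _ ≤ δ * ‖a‖ + δ * ‖b‖ := by gcongr
          _ = δ * (‖a‖ + ‖b‖) := by ring
      calc ‖p.1 * a - p.2 * b‖ ^ 2 ≤ (δ * (‖a‖ + ‖b‖)) ^ 2 :=
            pow_le_pow_left₀ (norm_nonneg _) h2 2
        _ = η / 2 * (‖a‖ + ‖b‖) ^ 2 := by rw [mul_pow, hδ2]
        _ ≤ η * (‖a‖ ^ 2 + ‖b‖ ^ 2) := by nlinarith [sq_nonneg (‖a‖ - ‖b‖)]
    intro a b
    by_cases h0 : ‖a‖ ^ 2 + ‖b‖ ^ 2 = 0
    · have ha : a = 0 := by
        have : ‖a‖ ^ 2 = 0 := by nlinarith [sq_nonneg ‖a‖, sq_nonneg ‖b‖]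
        simpa using this
      have hb : b = 0 := by
        have : ‖b‖ ^ 2 = 0 := by nlinarith [sq_nonneg ‖a‖, sq_nonneg ‖b‖]
        simpa using this
      exact hbound (1, 0) (by simp [hSph]) a b (by simp [ha])
    · have hn : 0 < ‖a‖ ^ 2 + ‖b‖ ^ 2 := lt_of_le_of_ne (by positivity) (Ne.symm h0)
      set n := Real.sqrt (‖a‖ ^ 2 + ‖b‖ ^ 2) with hnd
      have hn0 : 0 < n := Real.sqrt_pos.mpr hn
      have hn2 : n ^ 2 = ‖a‖ ^ 2 + ‖b‖ ^ 2 := Real.sq_sqrt hn.le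
      refine hbound (b / (n : ℂ), a / (n : ℂ)) ?_ a b ?_
      · show ‖b / (n : ℂ)‖ ^ 2 + ‖a / (n : ℂ)‖ ^ 2 = 1
        rw [norm_div, norm_div, Complex.norm_real, Real.norm_of_nonneg hn0.le, div_pow, div_pow,
          ← add_div, hn2, add_comm, div_self hn.ne']
      · show b / (n : ℂ) * a - a / (n : ℂ) * b = 0
        ring

variable {X : Type*} [MeasurableSpace X] {μ : Measure X}

/-- The functions in `L²` which vanish almost everywhere outside `A`. -/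
def La (μ : Measure X) (A : Set X) : Submodule ℂ (Lp ℂ 2 μ) where
  carrier := {f | ∀ᵐ x ∂μ, x ∉ A → f x = 0}
  add_mem' := by
    intro f g hf hg
    filter_upwards [hf, hg, Lp.coeFn_add f g] with x h1 h2 h3 h4
    rw [h3, Pi.add_apply, h1 h4, h2 h4, add_zero]
  zero_mem' := by
    filter_upwards [Lp.coeFn_zero ℂ 2 μ] with x h1 _
    rw [h1]; rfl
  smul_mem' := by
    intro c f hf
    filter_upwards [hf, Lp.coeFn_smul c f] with x h1 h2 h3
    rw [h2, Pi.smul_apply, h1 h3, smul_zero]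

lemma mem_La {A : Set X} {f : Lp ℂ 2 μ} : f ∈ La μ A ↔ ∀ᵐ x ∂μ, x ∉ A → f x = 0 := Iff.rfl

lemma La_mono {A B : Set X} (h : A ⊆ B) : La μ A ≤ La μ B := by
  intro f hf
  rw [mem_La] at hf ⊢
  filter_upwards [hf] with x h1 h2
  exact h1 (fun h3 => h2 (h h3))

/-- restriction to `A` -/
noncomputable def ind {A : Set X} (hA : MeasurableSet A) (f : Lp ℂ 2 μ) : Lp ℂ 2 μ :=
  ((Lp.memLp f).indicator hA).toLp _

lemma ind_coe {A : Set X} (hA : MeasurableSet A) (f : Lp ℂ 2 μ) :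
    (ind hA f : X → ℂ) =ᵐ[μ] A.indicator f := MemLp.coeFn_toLp _

lemma ind_mem {A : Set X} (hA : MeasurableSet A) (f : Lp ℂ 2 μ) : ind hA f ∈ La μ A := by
  rw [mem_La]
  filter_upwards [ind_coe hA f] with x h1 h2
  rw [h1, Set.indicator_of_notMem h2]

lemma sub_ind_mem {A : Set X} (hA : MeasurableSet A) (f : Lp ℂ 2 μ) : f - ind hA f ∈ La μ Aᶜ := by
  rw [mem_La]
  filter_upwards [ind_coe hA f, Lp.coeFn_sub f (ind hA f)] with x h1 h2 h3
  rw [Set.mem_compl_iff, not_not] at h3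
  rw [h2, Pi.sub_apply, h1, Set.indicator_of_mem h3, sub_self]

lemma inner_La {A : Set X} {f g : Lp ℂ 2 μ} (hf : f ∈ La μ A) (hg : g ∈ La μ Aᶜ) :
    ⟪f, g⟫_ℂ = 0 := by
  rw [L2.inner_def]
  have : (fun a => ⟪f a, g a⟫_ℂ) =ᵐ[μ] fun _ => 0 := by
    filter_upwards [mem_La.mp hf, mem_La.mp hg] with x h1 h2
    by_cases hx : x ∈ A
    · rw [h2 (by simpa using hx), inner_zero_right]
    · rw [h1 hx, inner_zero_left]
  rw [integral_congr_ae this, integral_zero]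

lemma La_eq_orth {A : Set X} (hA : MeasurableSet A) : La μ A = (La μ Aᶜ)ᗮ := by
  apply le_antisymm
  · intro f hf
    rw [Submodule.mem_orthogonal']
    intro g hg
    exact inner_La hf hg
  · intro f hf
    have h1 := sub_ind_mem hA f
    have h2 : ⟪f - ind hA f, f - ind hA f⟫_ℂ = 0 := by
      rw [inner_sub_left, Submodule.inner_left_of_mem_orthogonal h1 hf, inner_La (ind_mem hA f) h1,
        sub_zero]
    have h3 : f = ind hA f := sub_eq_zero.mp (inner_self_eq_zero.mp h2)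
    rw [h3]; exact ind_mem hA f

lemma La_closed {A : Set X} (hA : MeasurableSet A) : IsClosed ((La μ A : Submodule ℂ (Lp ℂ 2 μ)) :
    Set (Lp ℂ 2 μ)) := by
  rw [La_eq_orth hA]; exact Submodule.isClosed_orthogonal _

lemma pj_La {A : Set X} (hA : MeasurableSet A) (f : Lp ℂ 2 μ) : pj (La μ A) f = ind hA f := by
  rw [pj]
  apply Submodule.eq_starProjection_of_mem_of_inner_eq_zero
  · exact Submodule.le_topologicalClosure _ (ind_mem hA f)
  · intro w hw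
    rw [(La_closed hA).submodule_topologicalClosure_eq] at hw
    rw [← inner_conj_symm, inner_La hw (sub_ind_mem hA f), map_zero]

lemma inc_La_coe {A B : Set X} (hA : MeasurableSet A) (hB : MeasurableSet B) (h : A ⊆ B)
    (f : Lp ℂ 2 μ) : (inc (La μ A) (La μ B) f : X → ℂ) =ᵐ[μ] (B \ A).indicator f := by
  rw [inc_apply, pj_La hA, pj_La hB]
  filter_upwards [ind_coe hA f, ind_coe hB f, Lp.coeFn_sub (ind hB f) (ind hA f)] with x h1 h2 h3
  rw [h3, Pi.sub_apply, h1, h2]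
  by_cases ha : x ∈ A
  · rw [Set.indicator_of_mem ha, Set.indicator_of_mem (h ha), Set.indicator_of_notMem
      (fun hh => hh.2 ha), sub_self]
  · by_cases hb : x ∈ B
    · rw [Set.indicator_of_notMem ha, Set.indicator_of_mem hb, Set.indicator_of_mem
        (show x ∈ B \ A from ⟨hb, ha⟩), sub_zero]
    · rw [Set.indicator_of_notMem ha, Set.indicator_of_notMem hb, Set.indicator_of_notMem
        (fun hh => hb hh.1), sub_zero]

lemma norm_inc_La {A B : Set X} (hA : MeasurableSet A) (hB : MeasurableSet B) (h : A ⊆ B)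
    (f : Lp ℂ 2 μ) : ‖inc (La μ A) (La μ B) f‖ = (eLpNorm ((B \ A).indicator f) 2 μ).toReal := by
  rw [Lp.norm_def, eLpNorm_congr_ae (inc_La_coe hA hB h f)]

lemma norm_sq_Lp (f : Lp ℂ 2 μ) : ‖f‖ ^ 2 = ∫ x, ‖f x‖ ^ 2 ∂μ := by
  have h1 : (⟪f, f⟫_ℂ).re = ∫ x, ‖f x‖ ^ 2 ∂μ := by
    rw [L2.inner_def]
    have h2 : ∀ x, ⟪f x, f x⟫_ℂ = ((‖f x‖ ^ 2 : ℝ) : ℂ) := by
      intro x
      rw [inner_self_eq_norm_sq_to_K]; push_cast; rfl
    simp_rw [h2]
    rw [integral_complex_ofReal, Complex.ofReal_re]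
  rw [← h1, inner_self_eq_norm_sq_to_K]
  norm_cast

lemma integrable_sq (f : Lp ℂ 2 μ) : Integrable (fun x => ‖f x‖ ^ 2) μ :=
  (Lp.memLp f).norm.integrable_sq

lemma normsq_inc_La {A B : Set X} (hA : MeasurableSet A) (hB : MeasurableSet B) (h : A ⊆ B)
    (f : Lp ℂ 2 μ) : ‖inc (La μ A) (La μ B) f‖ ^ 2 = ∫ x in B \ A, ‖f x‖ ^ 2 ∂μ := by
  rw [norm_sq_Lp, ← integral_indicator (hB.diff hA)]
  apply integral_congr_ae
  filter_upwards [inc_La_coe hA hB h f] with x h1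
  rw [h1]
  by_cases hx : x ∈ B \ A
  · rw [Set.indicator_of_mem hx, Set.indicator_of_mem hx]
  · rw [Set.indicator_of_notMem hx, Set.indicator_of_notMem hx]; simp

/-- pointwise bound gives a relative bound -/
lemma rel_La {A B : Set X} (hA : MeasurableSet A) (hB : MeasurableSet B) (h : A ⊆ B)
    (a b : Lp ℂ 2 μ) (α β : ℂ) (κ : ℝ)
    (hp : ∀ x ∈ B \ A, ‖α * a x - β * b x‖ ^ 2 ≤ κ * (‖a x‖ ^ 2 + ‖b x‖ ^ 2)) :
    ‖inc (La μ A) (La μ B) (α • a - β • b)‖ ^ 2 ≤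
      κ * (‖inc (La μ A) (La μ B) a‖ ^ 2 + ‖inc (La μ A) (La μ B) b‖ ^ 2) := by
  rw [normsq_inc_La hA hB h, normsq_inc_La hA hB h, normsq_inc_La hA hB h,
    ← integral_add (integrable_sq a).integrableOn (integrable_sq b).integrableOn,
    ← integral_const_mul]
  apply integral_mono_ae
  · exact (integrable_sq _).integrableOn
  · exact ((integrable_sq a).add (integrable_sq b)).const_mul κ |>.integrableOn
  · have h0 := ae_restrict_of_ae (s := B \ A) (Lp.coeFn_sub (α • a) (β • b))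
    have h1 := ae_restrict_of_ae (s := B \ A) (Lp.coeFn_smul α a)
    have h2 := ae_restrict_of_ae (s := B \ A) (Lp.coeFn_smul β b)
    filter_upwards [h0, h1, h2, ae_restrict_mem (hB.diff hA)] with x g0 g1 g2 g3
    show ‖(α • a - β • b : Lp ℂ 2 μ) x‖ ^ 2 ≤ κ * (‖a x‖ ^ 2 + ‖b x‖ ^ 2)
    rw [g0, Pi.sub_apply, g1, g2]
    exact hp x g3

/-- the choice of a piece -/
lemma piece_exists [IsFiniteMeasure μ] {R : Set X} (hR : MeasurableSet R) (a b : Lp ℂ 2 μ)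
    (κ : ℝ) (F : Finset (ℂ × ℂ))
    (hF : ∀ a b : ℂ, ∃ p ∈ F, ‖p.1 * a - p.2 * b‖ ^ 2 ≤ κ * (‖a‖ ^ 2 + ‖b‖ ^ 2)) :
    ∃ p ∈ F, ∃ D : Set X, MeasurableSet D ∧ D ⊆ R ∧ μ.real R ≤ F.card * μ.real D ∧
      ∀ x ∈ D, ‖p.1 * a x - p.2 * b x‖ ^ 2 ≤ κ * (‖a x‖ ^ 2 + ‖b x‖ ^ 2) := by
  classical
  set D : ℂ × ℂ → Set X := fun p =>
    R ∩ {x | ‖p.1 * a x - p.2 * b x‖ ^ 2 ≤ κ * (‖a x‖ ^ 2 + ‖b x‖ ^ 2)} with hD
  have ha : Measurable (a : X → ℂ) := (Lp.stronglyMeasurable a).measurable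
  have hb : Measurable (b : X → ℂ) := (Lp.stronglyMeasurable b).measurable
  have hDm : ∀ p, MeasurableSet (D p) := by
    intro p
    refine hR.inter (measurableSet_le ?_ ?_)
    · fun_prop
    · fun_prop
  have hcov : R ⊆ ⋃ p ∈ F, D p := by
    intro x hx
    obtain ⟨p, hp, hp2⟩ := hF (a x) (b x)
    exact Set.mem_iUnion₂.mpr ⟨p, hp, hx, hp2⟩
  have hsum : μ.real R ≤ ∑ p ∈ F, μ.real (D p) := by
    calc μ.real R ≤ μ.real (⋃ p ∈ F, D p) := measureReal_mono hcov (measure_ne_top μ _)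
      _ ≤ ∑ p ∈ F, μ.real (D p) := measureReal_biUnion_finset_le _ _
  have hFne : F.Nonempty := by
    obtain ⟨p, hp, _⟩ := hF 0 0
    exact ⟨p, hp⟩
  obtain ⟨p, hp, hmax⟩ := F.exists_max_image (fun p => μ.real (D p)) hFne
  refine ⟨p, hp, D p, hDm p, Set.inter_subset_left, ?_, fun x hx => hx.2⟩
  calc μ.real R ≤ ∑ p ∈ F, μ.real (D p) := hsum
    _ ≤ ∑ _q ∈ F, μ.real (D p) := Finset.sum_le_sum (fun q hq => hmax q hq)
    _ = F.card * μ.real (D p) := by rw [Finset.sum_const, nsmul_eq_mul]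

end Pool.Agent.Helper49.KS
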