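import Mathlib

/-!
Definitions used in the statement on operators with scalar gaps.
-/

set_option autoImplicit false

namespace Pool.Agent.Helper49.KS

variable {H : Type} [NormedAddCommGroup H] [InnerProductSpace ℂ H]

/-- The property of the problem: there is a chain `C` of closed invariant subspaces of `T` such that
the projections onto the members of `C` generate a maximal abelian self-adjoint algebra, that is,
any two bounded operators which leave invariant every member of `C` and its orthogonal complement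
(operators commuting with these projections) commute with each other. -/
def HasMasaChain (T : H →L[ℂ] H) : Prop :=
  ∃ C : Set (Submodule ℂ H), IsChain (· ≤ ·) C ∧
    (∀ M ∈ C, IsClosed (M : Set H) ∧ ∀ x ∈ M, T x ∈ M) ∧
    ∀ Y Z : H →L[ℂ] H,
      (∀ M ∈ C, (∀ x ∈ M, Y x ∈ M) ∧ (∀ x ∈ Mᗮ, Y x ∈ Mᗮ)) →
      (∀ M ∈ C, (∀ x ∈ M, Z x ∈ M) ∧ (∀ x ∈ Mᗮ, Z x ∈ Mᗮ)) →
      Y * Z = Z * Y

/-- `M` is a closed invariant subspace of `T`. -/
def IsClosedInvariant (T : H →L[ℂ] H) (M : Submodule ℂ H) : Prop :=
  IsClosed (M : Set H) ∧ ∀ x ∈ M, T x ∈ M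

/-- For closed invariant subspaces `A ≤ B` of `T`: the compression of `T` to the orthogonal
difference `B ⊖ A` is similar to a normal operator `N` on a Hilbert space `K`. The similarity is the
bounded map `S : K → H`, bounded below, with range `B ⊖ A`; that the compression of `T` is
`S N S⁻¹` means that `T S k - S N k` lies in `A` for every `k`. -/
def GapSimilarToNormal (T : H →L[ℂ] H) (A B : Submodule ℂ H) : Prop :=
  ∃ (K : Type) (_ : NormedAddCommGroup K) (_ : InnerProductSpace ℂ K) (_ : CompleteSpace K)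
    (N : K →L[ℂ] K) (S : K →L[ℂ] H) (c : ℝ), IsStarNormal N ∧ 0 < c ∧
      (∀ k, c * ‖k‖ ≤ ‖S k‖) ∧ (∀ x, x ∈ B ⊓ Aᗮ ↔ ∃ k, S k = x) ∧ ∀ k, T (S k) - S (N k) ∈ A

end Pool.Agent.Helper49.KS
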