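import Pool.Agent.Helper49.KS.Par

/-!
Increments of the images of a chain under a bounded below operator.
-/

set_option autoImplicit false

namespace Pool.Agent.Helper49.KS

open scoped InnerProductSpace

variable {K H : Type*} [NormedAddCommGroup H] [InnerProductSpace ℂ H] [CompleteSpace H]
  [NormedAddCommGroup K] [InnerProductSpace ℂ K] [CompleteSpace K]

/-- the subspace `A₀ + S L` -/
def im (A₀ : Submodule ℂ H) (S : K →L[ℂ] H) (L : Submodule ℂ K) : Submodule ℂ H :=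
  A₀ ⊔ L.map (S : K →ₗ[ℂ] H)

variable {A₀ : Submodule ℂ H}

lemma mem_im {S : K →L[ℂ] H} {L : Submodule ℂ K} {v : H} :
    v ∈ im A₀ S L ↔ ∃ a ∈ A₀, ∃ w ∈ L, a + S w = v := by
  rw [im, Submodule.mem_sup]
  constructor
  · rintro ⟨y, hy, z, hz, rfl⟩
    obtain ⟨w, hw, rfl⟩ := Submodule.mem_map.mp hz
    exact ⟨y, hy, w, hw, rfl⟩
  · rintro ⟨a, ha, w, hw, rfl⟩
    exact ⟨a, ha, S w, Submodule.mem_map.mpr ⟨w, hw, rfl⟩, rfl⟩

lemma im_base {S : K →L[ℂ] H} {L : Submodule ℂ K} : A₀ ≤ im A₀ S L := le_sup_left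

lemma im_mem {S : K →L[ℂ] H} {L : Submodule ℂ K} {w : K} (hw : w ∈ L) : S w ∈ im A₀ S L :=
  mem_im.mpr ⟨0, Submodule.zero_mem _, w, hw, by simp⟩

lemma im_mono {S : K →L[ℂ] H} {L L' : Submodule ℂ K} (h : L ≤ L') : im A₀ S L ≤ im A₀ S L' :=
  sup_le_sup le_rfl (Submodule.map_mono h)

/-- `S` is bounded below modulo `A₀` -/
def Below (A₀ : Submodule ℂ H) (S : K →L[ℂ] H) (c : ℝ) : Prop :=
  ∀ w, c * ‖w‖ ≤ ‖S w - pj A₀ (S w)‖

lemma sub_pj_norm_le (M : Submodule ℂ H) (v : H) : ‖v - pj M v‖ ≤ ‖v‖ := by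
  have h := inc_norm_le (M := M) (N := ⊤) le_top v
  rw [inc_apply, pj_top] at h
  exact h

lemma Below.bound {S : K →L[ℂ] H} {c : ℝ} (hS : Below A₀ S c) {a : H} (ha : a ∈ A₀) (w : K) :
    c * ‖w‖ ≤ ‖a + S w‖ := by
  have h1 := sub_pj_norm_le A₀ (a + S w)
  rw [map_add, pj_eq_self ha] at h1
  have h2 : a + S w - (a + pj A₀ (S w)) = S w - pj A₀ (S w) := by abel
  rw [h2] at h1
  exact (hS w).trans h1

lemma im_closed {S : K →L[ℂ] H} {c : ℝ} (hA₀ : IsClosed (A₀ : Set H)) (hc : 0 < c)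
    (hS : Below A₀ S c) {L : Submodule ℂ K} (hL : IsClosed (L : Set K)) :
    IsClosed ((im A₀ S L : Submodule ℂ H) : Set H) := by
  set R : K →L[ℂ] H := S - (pj A₀).comp S with hR
  have hRa : ∀ w, R w = S w - pj A₀ (S w) := fun w => rfl
  have hA : AntilipschitzWith (Real.toNNReal c⁻¹) R := by
    refine AddMonoidHomClass.antilipschitz_of_bound R ?_
    intro w
    rw [Real.coe_toNNReal _ (by positivity)]
    have := hS w
    rw [inv_mul_eq_div, le_div_iff₀ hc, hRa]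
    linarith
  have h1 : Topology.IsClosedEmbedding R := hA.isClosedEmbedding R.uniformContinuous
  have h2 := h1.isClosedMap _ hL
  have h3 : ((im A₀ S L : Submodule ℂ H) : Set H) =
      (fun v : H => v - pj A₀ v) ⁻¹' (R '' (L : Set K)) := by
    ext v
    simp only [SetLike.mem_coe, Set.mem_preimage, Set.mem_image]
    rw [mem_im]
    constructor
    · rintro ⟨a, ha, w, hw, rfl⟩
      refine ⟨w, hw, ?_⟩
      rw [hRa, map_add, pj_eq_self ha]; abel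
    · rintro ⟨w, hw, h4⟩
      refine ⟨pj A₀ v - pj A₀ (S w), ?_, w, hw, ?_⟩
      · exact Submodule.sub_mem _ (pj_mem' hA₀ v) (pj_mem' hA₀ _)
      · rw [hRa] at h4
        have : pj A₀ v - pj A₀ (S w) + S w = pj A₀ v + (S w - pj A₀ (S w)) := by abel
        rw [this, h4]; abel
  rw [h3]
  exact h2.preimage (by fun_prop)

/-- the vector `S† (1 - P) u` -/
noncomputable def av (A₀ : Submodule ℂ H) (S : K →L[ℂ] H) (L : Submodule ℂ K) (u : H) : K :=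
  ContinuousLinearMap.adjoint S (u - pj (im A₀ S L) u)

lemma av_inner (S : K →L[ℂ] H) (L : Submodule ℂ K) (u : H) (w : K) :
    ⟪av A₀ S L u, w⟫_ℂ = ⟪u - pj (im A₀ S L) u, S w⟫_ℂ := by
  rw [av, ContinuousLinearMap.adjoint_inner_left]

lemma av_comb (S : K →L[ℂ] H) (L : Submodule ℂ K) (α β : ℂ) (e h : H) :
    av A₀ S L (α • e - β • h) = α • av A₀ S L e - β • av A₀ S L h := by
  simp only [av, map_sub, map_smul, smul_sub]
  abel

lemma est_upper (hA₀ : IsClosed (A₀ : Set H)) {S : K →L[ℂ] H} {c : ℝ} (hc : 0 < c)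
    (hS : Below A₀ S c)
    {L L' : Submodule ℂ K} (hL : IsClosed (L : Set K)) (hL' : IsClosed (L' : Set K)) (h : L ≤ L')
    (u : H) : c * ‖inc (im A₀ S L) (im A₀ S L') u‖ ≤ ‖inc L L' (av A₀ S L u)‖ := by
  set d := inc (im A₀ S L) (im A₀ S L') u with hd
  have hm : im A₀ S L ≤ im A₀ S L' := im_mono h
  have hmem : d ∈ im A₀ S L' := by
    rw [hd, inc_apply]
    exact Submodule.sub_mem _ (pj_mem' (im_closed hA₀ hc hS hL') u)
      (hm (pj_mem' (im_closed hA₀ hc hS hL) u))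
  obtain ⟨a, ha, w, hw, hwd⟩ := mem_im.mp hmem
  have e1 : inc (im A₀ S L) (im A₀ S L') d = d := inc_idem hm u
  have e2 : pj (im A₀ S L) d = 0 := by
    rw [hd, inc_apply, map_sub, pj_comp_le hm, pj_idem, sub_self]
  have e0 : ⟪u - pj (im A₀ S L) u, a⟫_ℂ = 0 := pj_sub_inner _ _ _ (im_base ha)
  have e3 : ⟪d, d⟫_ℂ = ⟪av A₀ S L u, w⟫_ℂ := by
    have f1 : ⟪av A₀ S L u, w⟫_ℂ = ⟪u - pj (im A₀ S L) u, d⟫_ℂ := by
      rw [← hwd, inner_add_right, e0, zero_add, av_inner]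
    rw [f1, inner_sub_left, pj_sym, e2, inner_zero_right, sub_zero]
    conv_lhs => rw [hd, inc_sym, ← hd, e1]
  have e4 : ⟪av A₀ S L u, w⟫_ℂ = ⟪inc L L' (av A₀ S L u), w⟫_ℂ := by
    have h1 : pj L' w = w := pj_eq_self hw
    have h2 : ⟪av A₀ S L u, pj L w⟫_ℂ = 0 := by
      rw [av_inner]
      exact pj_sub_inner _ _ _ (im_mem (pj_mem' hL w))
    rw [inc_sym, inc_apply, h1, inner_sub_right, h2, sub_zero]
  have e5 : ‖d‖ ^ 2 ≤ ‖inc L L' (av A₀ S L u)‖ * ‖w‖ := by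
    have := norm_inner_le_norm (𝕜 := ℂ) (inc L L' (av A₀ S L u)) w
    rw [← e4, ← e3, inner_self_eq_norm_sq_to_K] at this
    simpa using this
  have e6 : c * ‖w‖ ≤ ‖d‖ := by rw [← hwd]; exact hS.bound ha w
  by_cases h0 : ‖d‖ = 0
  · rw [h0, mul_zero]; exact norm_nonneg _
  have hdpos : 0 < ‖d‖ := lt_of_le_of_ne (norm_nonneg _) (Ne.symm h0)
  have e7 : c * ‖d‖ ^ 2 ≤ ‖inc L L' (av A₀ S L u)‖ * ‖d‖ := by
    calc c * ‖d‖ ^ 2 ≤ c * (‖inc L L' (av A₀ S L u)‖ * ‖w‖) := by gcongr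
      _ = ‖inc L L' (av A₀ S L u)‖ * (c * ‖w‖) := by ring
      _ ≤ ‖inc L L' (av A₀ S L u)‖ * ‖d‖ := by gcongr
  have e8 : (c * ‖d‖) * ‖d‖ ≤ ‖inc L L' (av A₀ S L u)‖ * ‖d‖ := by linarith [e7, sq ‖d‖]
  exact le_of_mul_le_mul_right e8 hdpos

lemma est_lower {S : K →L[ℂ] H} {L L' : Submodule ℂ K}
    (hL : IsClosed (L : Set K)) (hL' : IsClosed (L' : Set K)) (h : L ≤ L')
    (u : H) : ‖inc L L' (av A₀ S L u)‖ ≤ ‖S‖ * ‖inc (im A₀ S L) (im A₀ S L') u‖ := by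
  set w := inc L L' (av A₀ S L u) with hw
  have hm : im A₀ S L ≤ im A₀ S L' := im_mono h
  have hwm : w ∈ L' := by
    rw [hw, inc_apply]
    exact Submodule.sub_mem _ (pj_mem' hL' _) (h (pj_mem' hL _))
  have e1 : ⟪w, w⟫_ℂ = ⟪av A₀ S L u, w⟫_ℂ := by
    conv_lhs => rw [hw, inc_sym, ← hw]
    rw [hw, inc_idem h]
  have e2 : ⟪av A₀ S L u, w⟫_ℂ = ⟪inc (im A₀ S L) (im A₀ S L') u, S w⟫_ℂ := by
    have h1 : pj (im A₀ S L') (S w) = S w := pj_eq_self (im_mem hwm)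
    rw [av_inner]
    conv_lhs => rw [← h1, ← pj_sym, map_sub, pj_comp_le' hm]
    rfl
  have e3 : ‖w‖ ^ 2 ≤ ‖inc (im A₀ S L) (im A₀ S L') u‖ * ‖S w‖ := by
    have := norm_inner_le_norm (𝕜 := ℂ) (inc (im A₀ S L) (im A₀ S L') u) (S w)
    rw [← e2, ← e1, inner_self_eq_norm_sq_to_K] at this
    simpa using this
  by_cases h0 : ‖w‖ = 0
  · rw [h0]; positivity
  have hwpos : 0 < ‖w‖ := lt_of_le_of_ne (norm_nonneg _) (Ne.symm h0)
  have e4 : ‖w‖ * ‖w‖ ≤ (‖S‖ * ‖inc (im A₀ S L) (im A₀ S L') u‖) * ‖w‖ := by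
    calc ‖w‖ * ‖w‖ = ‖w‖ ^ 2 := by ring
      _ ≤ ‖inc (im A₀ S L) (im A₀ S L') u‖ * ‖S w‖ := e3
      _ ≤ ‖inc (im A₀ S L) (im A₀ S L') u‖ * (‖S‖ * ‖w‖) := by
        gcongr; exact S.le_opNorm w
      _ = _ := by ring
  exact le_of_mul_le_mul_right e4 hwpos

/-- A relative bound for increments in the model gives one in the image. -/
lemma est_rel (hA₀ : IsClosed (A₀ : Set H)) {S : K →L[ℂ] H} {c C : ℝ} (hc : 0 < c)
    (hS : Below A₀ S c) (hC : ‖S‖ ≤ C)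
    {L L' : Submodule ℂ K} (hL : IsClosed (L : Set K)) (hL' : IsClosed (L' : Set K)) (h : L ≤ L')
    (e g : H) (α β : ℂ) (κ : ℝ) (hκ : 0 ≤ κ)
    (hrel : ‖inc L L' (α • av A₀ S L e - β • av A₀ S L g)‖ ^ 2 ≤
      κ * (‖inc L L' (av A₀ S L e)‖ ^ 2 + ‖inc L L' (av A₀ S L g)‖ ^ 2)) :
    ‖inc (im A₀ S L) (im A₀ S L') (α • e - β • g)‖ ^ 2 ≤
      (κ * C ^ 2 / c ^ 2) *
        (‖inc (im A₀ S L) (im A₀ S L') e‖ ^ 2 + ‖inc (im A₀ S L) (im A₀ S L') g‖ ^ 2) := by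
  have h1 := est_upper hA₀ hc hS hL hL' h (α • e - β • g)
  rw [av_comb] at h1
  have h2 := est_lower (A₀ := A₀) (S := S) hL hL' h e
  have h3 := est_lower (A₀ := A₀) (S := S) hL hL' h g
  have hC0 : 0 ≤ C := (norm_nonneg S).trans hC
  have h4 : c ^ 2 * ‖inc (im A₀ S L) (im A₀ S L') (α • e - β • g)‖ ^ 2 ≤
      ‖inc L L' (α • av A₀ S L e - β • av A₀ S L g)‖ ^ 2 := by
    rw [← mul_pow]; exact pow_le_pow_left₀ (by positivity) h1 2
  have h5 : ‖inc L L' (av A₀ S L e)‖ ^ 2 ≤ C ^ 2 * ‖inc (im A₀ S L) (im A₀ S L') e‖ ^ 2 := by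
    rw [← mul_pow]
    exact pow_le_pow_left₀ (norm_nonneg _) (h2.trans (by gcongr)) 2
  have h6 : ‖inc L L' (av A₀ S L g)‖ ^ 2 ≤ C ^ 2 * ‖inc (im A₀ S L) (im A₀ S L') g‖ ^ 2 := by
    rw [← mul_pow]
    exact pow_le_pow_left₀ (norm_nonneg _) (h3.trans (by gcongr)) 2
  have h7 : c ^ 2 * ‖inc (im A₀ S L) (im A₀ S L') (α • e - β • g)‖ ^ 2 ≤
      κ * (C ^ 2 * ‖inc (im A₀ S L) (im A₀ S L') e‖ ^ 2 +
        C ^ 2 * ‖inc (im A₀ S L) (im A₀ S L') g‖ ^ 2) :=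
    h4.trans (hrel.trans (by gcongr))
  have hc2 : 0 < c ^ 2 := by positivity
  rw [div_mul_eq_mul_div, le_div_iff₀ hc2]
  nlinarith [h7]

lemma est_last {S : K →L[ℂ] H} {L L' : Submodule ℂ K} (hL : IsClosed (L : Set K)) (h : L ≤ L')
    (e a : H) (ha : a ∈ A₀) (w : K) (hw : w ∈ L') (hSw : a + S w = pj (im A₀ S L') e) :
    ‖inc (im A₀ S L) (im A₀ S L') e‖ ≤ ‖S‖ * ‖inc L L' w‖ := by
  have hm : im A₀ S L ≤ im A₀ S L' := im_mono h
  have h0 : pj (im A₀ S L) a = a := pj_eq_self (im_base ha)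
  have h1 : inc (im A₀ S L) (im A₀ S L') e = S w - pj (im A₀ S L) (S w) := by
    rw [inc_apply, ← hSw, ← pj_comp_le hm e, ← hSw, map_add, h0]
    abel
  have h2 : pj (im A₀ S L) (S (pj L w)) = S (pj L w) :=
    pj_eq_self (im_mem (pj_mem' hL w))
  have h3 : S w - pj (im A₀ S L) (S w) = S (inc L L' w) - pj (im A₀ S L) (S (inc L L' w)) := by
    rw [inc_apply, pj_eq_self hw, map_sub, map_sub, h2]
    abel
  rw [h1, h3]
  exact (sub_pj_norm_le _ _).trans (S.le_opNorm _)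

end Pool.Agent.Helper49.KS
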