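import Pool.Agent.Helper49.KS.Build

/-!
Gluing the chains in the gaps of an atomic chain, and the chain in a gap with an `L²` model.
-/

set_option autoImplicit false

namespace Pool.Agent.Helper49.KS

open scoped InnerProductSpace
open MeasureTheory

variable {H : Type*} [NormedAddCommGroup H] [InnerProductSpace ℂ H] [CompleteSpace H]

/-- In the gap from `A` to `B` there is a good chain of closed invariant subspaces of `T`. -/
def GapGood (T : H →L[ℂ] H) (A B : Submodule ℂ H) : Prop :=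
  ∃ C : Set (Submodule ℂ H), C.Countable ∧ IsChain (· ≤ ·) C ∧
    (∀ M ∈ C, IsClosed (M : Set H) ∧ (∀ x ∈ M, T x ∈ M) ∧ A ≤ M ∧ M ≤ B) ∧
    ∀ Y Z : H →L[ℂ] H, Comm C Y → Comm C Z → ∀ v, Y (Z (inc A B v)) = Z (Y (inc A B v))

theorem glue {ι : Type*} {T : H →L[ℂ] H} {A B : ι → Submodule ℂ H}
    (hgood : ∀ i, GapGood T (A i) (B i))
    (hord : ∀ i j, i ≠ j → B i ≤ A j ∨ B j ≤ A i)
    (hspan : ∀ v, (∀ i, inc (A i) (B i) v = 0) → v = 0) :
    ∃ C : Set (Submodule ℂ H), (Countable ι → C.Countable) ∧ IsChain (· ≤ ·) C ∧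
      (∀ M ∈ C, IsClosed (M : Set H) ∧ ∀ x ∈ M, T x ∈ M) ∧
      ∀ Y Z : H →L[ℂ] H, (∀ M ∈ C, Red Y M) → (∀ M ∈ C, Red Z M) → Y * Z = Z * Y := by
  choose C h1 h2 h3 h4 using hgood
  refine ⟨⋃ i, C i, fun _ => Set.countable_iUnion h1, ?_, ?_, ?_⟩
  · intro M hM N hN hne
    obtain ⟨i, hi⟩ := Set.mem_iUnion.mp hM
    obtain ⟨j, hj⟩ := Set.mem_iUnion.mp hN
    by_cases hij : i = j
    · subst hij
      exact h2 i hi hj hne
    · have a1 := h3 i M hi
      have a2 := h3 j N hj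
      rcases hord i j hij with h | h
      · exact Or.inl (a1.2.2.2.trans (h.trans a2.2.2.1))
      · exact Or.inr (a2.2.2.2.trans (h.trans a1.2.2.1))
  · intro M hM
    obtain ⟨i, hi⟩ := Set.mem_iUnion.mp hM
    exact ⟨(h3 i M hi).1, (h3 i M hi).2.1⟩
  · intro Y Z hY hZ
    have hcomm : ∀ (Y : H →L[ℂ] H), (∀ M ∈ ⋃ i, C i, Red Y M) → ∀ i, Comm (C i) Y := by
      intro Y hY i M hM v
      exact Red.comm (h3 i M hM).1 (hY M (Set.mem_iUnion.mpr ⟨i, hM⟩)) v
    set W : H →L[ℂ] H := Y * Z - Z * Y with hW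
    have hWz : ∀ i v, W (inc (A i) (B i) v) = 0 := by
      intro i v
      show Y (Z (inc (A i) (B i) v)) - Z (Y (inc (A i) (B i) v)) = 0
      rw [h4 i Y Z (hcomm Y hY i) (hcomm Z hZ i), sub_self]
    have hadj : ∀ u, ContinuousLinearMap.adjoint W u = 0 := by
      intro u
      apply hspan
      intro i
      refine ext_inner_right ℂ ?_
      intro v
      rw [inc_sym, ContinuousLinearMap.adjoint_inner_left, hWz, inner_zero_right, inner_zero_left]
    have hW0 : W = 0 := by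
      ext v
      refine ext_inner_left ℂ ?_
      intro u
      rw [← ContinuousLinearMap.adjoint_inner_left, hadj]
      simp
    exact sub_eq_zero.mp hW0

variable {X : Type*} [MeasurableSpace X] {μ : Measure X} [IsFiniteMeasure μ]

/-- A gap with an `L²` model is good. -/
theorem gapGood_of_L2 [TopologicalSpace.SeparableSpace H] {T : H →L[ℂ] H} {A₀ : Submodule ℂ H}
    (hA₀ : IsClosed (A₀ : Set H)) (hT : ∀ x ∈ A₀, T x ∈ A₀)
    {S : Lp ℂ 2 μ →L[ℂ] H} {c : ℝ} (hc : 0 < c) (hS : Below A₀ S c)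
    (hTS : ∀ A : Set X, MeasurableSet A → ∀ f ∈ La μ A, ∃ g ∈ La μ A, T (S f) - S g ∈ A₀) :
    GapGood T A₀ (Mc A₀ S Set.univ) := by
  obtain ⟨C, h1, h2, h3, h4, h5, h6⟩ := exists_chain (μ := μ) hA₀ hc hS
  refine ⟨C, h1, h2, ?_, h6⟩
  intro M hM
  obtain ⟨A, hA, rfl⟩ := h3 M hM
  refine ⟨im_closed hA₀ hc hS (La_closed (μ := μ) hA), ?_, im_base, Mc_mono (Set.subset_univ A)⟩
  intro x hx
  obtain ⟨a, ha, w, hw, rfl⟩ := mem_im.mp hx
  obtain ⟨g, hg, hTg⟩ := hTS A hA w hw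
  refine mem_im.mpr ⟨T a + (T (S w) - S g), Submodule.add_mem _ (hT a ha) hTg, g, hg, ?_⟩
  rw [map_add]; abel

end Pool.Agent.Helper49.KS
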