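import Pool.Agent.Helper42.KS.Goals

set_option autoImplicit false

namespace Pool.Agent.Helper42.KS.PkMSUM

open Finset

lemma mn_le_R (R t : ℝ) (hR : 1 ≤ R) : mn R t ≤ R := by
  unfold mn
  split_ifs with h
  · exact le_rfl
  · push Not at h
    have h0 : 0 < 2 * |t - round t| := by
      by_contra hc
      push Not at hc
      nlinarith [abs_nonneg (t - round t)]
    rw [div_le_iff₀ h0]
    nlinarith

lemma mn_nonneg (R t : ℝ) (hR : 1 ≤ R) : 0 ≤ mn R t := by
  unfold mn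
  split_ifs with h
  · linarith
  · positivity

lemma mn_le_inv (R t d : ℝ) (hd : 0 < d) (h : d ≤ 2 * |t - round t|) : mn R t ≤ 1 / d := by
  unfold mn
  have h0 : 0 < 2 * |t - round t| := lt_of_lt_of_le hd h
  split_ifs with h1
  · have h2 : R ≤ 1 / (2 * |t - round t|) := by
      rw [le_div_iff₀ h0]; linarith
    exact h2.trans (one_div_le_one_div_of_le hd h)
  · exact one_div_le_one_div_of_le hd h

/-- the bound attached to a residue `m` mod `q` -/
noncomputable def B (R : ℝ) (q m : ℕ) : ℝ :=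
  if m = 0 then R else (q : ℝ) / m + (q : ℝ) / (q - m : ℕ)

lemma mn_le_B (R t : ℝ) (hR : 1 ≤ R) (q m : ℕ) (hq : 1 ≤ q) (hm : m < q)
    (h : (round ((q : ℝ) * t) : ℤ) % (q : ℤ) = m) : mn R t ≤ B R q m := by
  unfold B
  split_ifs with h0
  · exact mn_le_R R t hR
  · have hq0 : (0 : ℝ) < q := by exact_mod_cast hq
    have hm0 : 1 ≤ m := Nat.one_le_iff_ne_zero.2 h0
    have hm0' : (1 : ℝ) ≤ m := by exact_mod_cast hm0
    set k : ℤ := (round ((q : ℝ) * t) : ℤ) / (q : ℤ) with hk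
    have hk' : (round ((q : ℝ) * t) : ℤ) = m + q * k := by
      have := Int.emod_add_mul_ediv (round ((q : ℝ) * t)) (q : ℤ)
      rw [h] at this
      exact this.symm
    have h1 : |(q : ℝ) * t - (round ((q : ℝ) * t) : ℤ)| ≤ 1 / 2 := abs_sub_round _
    rw [hk'] at h1
    push_cast at h1
    -- distance from t to any integer n
    have hmq : (m : ℝ) ≤ q - 1 := by
      have : m + 1 ≤ q := hm
      have : (m : ℝ) + 1 ≤ q := by exact_mod_cast this
      linarith
    have hqm : ((q - m : ℕ) : ℝ) = (q : ℝ) - m := by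
      rw [Nat.cast_sub hm.le]
    have hqm1 : (1 : ℝ) ≤ (q : ℝ) - m := by linarith
    rw [hqm]
    set n : ℤ := round t with hn
    have habs := abs_le.1 h1
    by_cases hc : n ≤ k
    · -- t - n ≥ t - k ≥ (m - 1/2)/q
      have hnk : (n : ℝ) ≤ k := by exact_mod_cast hc
      have h2 : (m : ℝ) / q ≤ 2 * |t - n| := by
        have h3 : (m : ℝ) - 1 / 2 ≤ q * (t - n) := by nlinarith
        have h4 : q * (t - n) ≤ q * |t - n| := mul_le_mul_of_nonneg_left (le_abs_self _) hq0.le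
        rw [div_le_iff₀ hq0]
        nlinarith
      have h5 := mn_le_inv R t ((m : ℝ) / q) (by positivity) h2
      have h6 : 0 ≤ (q : ℝ) / (q - m) := div_nonneg hq0.le (by linarith)
      have h7 : 1 / ((m : ℝ) / q) = (q : ℝ) / m := by rw [one_div_div]
      rw [h7] at h5
      linarith
    · push Not at hc
      have hnk : (k : ℝ) + 1 ≤ n := by exact_mod_cast hc
      have h2 : ((q : ℝ) - m) / q ≤ 2 * |t - n| := by
        have h3 : (q : ℝ) - m - 1 / 2 ≤ q * (n - t) := by nlinarith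
        have h4 : q * (n - t) ≤ q * |t - n| := by
          apply mul_le_mul_of_nonneg_left _ hq0.le
          rw [abs_sub_comm]; exact le_abs_self _
        rw [div_le_iff₀ hq0]
        nlinarith
      have h5 := mn_le_inv R t (((q : ℝ) - m) / q) (div_pos (by linarith) hq0) h2
      have h6 : 0 ≤ (q : ℝ) / m := by positivity
      have h7 : 1 / (((q : ℝ) - m) / q) = (q : ℝ) / (q - m) := by rw [one_div_div]
      rw [h7] at h5
      linarith

lemma sum_inv (q : ℕ) (hq : 1 ≤ q) : ∑ m ∈ Finset.range (q - 1), (1 : ℝ) / ((m + 1 : ℕ) : ℝ) ≤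
    1 + Real.log q := by
  have h := harmonic_le_one_add_log q
  rw [harmonic_eq_sum_Icc] at h
  push_cast at h
  refine le_trans ?_ h
  have h2 : ∑ m ∈ Finset.range (q - 1), (1 : ℝ) / ((m + 1 : ℕ) : ℝ) =
      ∑ i ∈ Finset.Icc 1 (q - 1), ((i : ℝ))⁻¹ := by
    rw [Finset.range_eq_Ico, Finset.sum_Ico_add' (fun m : ℕ => (1 : ℝ) / (m : ℝ)) 0 (q - 1) 1]
    rw [zero_add]
    apply Finset.sum_congr
    · ext x; simp only [Finset.mem_Ico, Finset.mem_Icc]; omega
    · intro x _; rw [one_div]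
  rw [h2]
  apply Finset.sum_le_sum_of_subset_of_nonneg
  · apply Finset.Icc_subset_Icc le_rfl (by omega)
  · intro i _ _; positivity

lemma sum_B (R : ℝ) (q : ℕ) (hq : 1 ≤ q) :
    ∑ m ∈ range q, B R q m ≤ R + 2 * q * (1 + Real.log q) := by
  obtain ⟨p, rfl⟩ : ∃ p, q = p + 1 := ⟨q - 1, by omega⟩
  rw [Finset.sum_range_succ']
  have h0 : B R (p + 1) 0 = R := by simp [B]
  rw [h0]
  have h1 : ∀ m ∈ range p, B R (p + 1) (m + 1) =
      ((p + 1 : ℕ) : ℝ) * ((1 : ℝ) / ((m + 1 : ℕ) : ℝ)) +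
        ((p + 1 : ℕ) : ℝ) * ((1 : ℝ) / ((p - 1 - m + 1 : ℕ) : ℝ)) := by
    intro m hm
    have hm' : m < p := Finset.mem_range.1 hm
    unfold B
    rw [if_neg (Nat.succ_ne_zero m)]
    have : p + 1 - (m + 1) = p - 1 - m + 1 := by omega
    rw [this]
    ring
  rw [Finset.sum_congr rfl h1, Finset.sum_add_distrib, ← Finset.mul_sum, ← Finset.mul_sum]
  rw [Finset.sum_range_reflect (fun m : ℕ => (1 : ℝ) / ((m + 1 : ℕ) : ℝ)) p]
  have h2 := sum_inv (p + 1) hq
  rw [Nat.add_sub_cancel] at h2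
  have h3 : (0 : ℝ) ≤ ((p + 1 : ℕ) : ℝ) := by positivity
  have h4 := mul_le_mul_of_nonneg_left h2 h3
  linarith

/-- number of elements in a fibre -/
lemma fibre (α : ℝ) (q z0 : ℕ) (a : ℤ) (hq : 1 ≤ q) (hc : IsCoprime a (q : ℤ))
    (hα : |α - a / q| ≤ 1 / (q : ℝ) ^ 2) (m : ℕ) :
    (((range q).filter fun r : ℕ =>
      ((round ((q : ℝ) * (α * ((z0 + r + 1 : ℕ) : ℝ))) : ℤ) % (q : ℤ)).toNat = m).card : ℝ)
      ≤ 3 := by
  classical
  set F : ℕ → ℕ := fun r =>
    ((round ((q : ℝ) * (α * ((z0 + r + 1 : ℕ) : ℝ))) : ℤ) % (q : ℤ)).toNat with hF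
  have hq0 : (0 : ℝ) < q := by exact_mod_cast hq
  have hqZ : (0 : ℤ) < q := by exact_mod_cast hq
  by_cases hne : ((range q).filter fun r : ℕ => F r = m) = ∅
  · rw [hne]; simp
  obtain ⟨r0, hr0⟩ := Finset.nonempty_iff_ne_empty.2 hne
  rw [Finset.mem_filter, Finset.mem_range] at hr0
  have hsub : ((range q).filter fun r : ℕ => F r = m) ⊆
      (Finset.Icc (-1 : ℤ) 1).biUnion
        (fun j => (range q).filter fun r : ℕ => (q : ℤ) ∣ a * ((r : ℤ) - r0) - j) := by
    intro r hr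
    rw [Finset.mem_filter, Finset.mem_range] at hr
    have hrr : F r = F r0 := hr.2.trans hr0.2.symm
    have h1 : (round ((q : ℝ) * (α * ((z0 + r + 1 : ℕ) : ℝ))) : ℤ) % (q : ℤ) =
        (round ((q : ℝ) * (α * ((z0 + r0 + 1 : ℕ) : ℝ))) : ℤ) % (q : ℤ) := by
      have e1 := Int.emod_nonneg (round ((q : ℝ) * (α * ((z0 + r + 1 : ℕ) : ℝ)))) hqZ.ne'
      have e2 := Int.emod_nonneg (round ((q : ℝ) * (α * ((z0 + r0 + 1 : ℕ) : ℝ)))) hqZ.ne'
      have e3 : ((round ((q : ℝ) * (α * ((z0 + r + 1 : ℕ) : ℝ))) : ℤ) % (q : ℤ)).toNat =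
        ((round ((q : ℝ) * (α * ((z0 + r0 + 1 : ℕ) : ℝ))) : ℤ) % (q : ℤ)).toNat := hrr
      omega
    have h2 : (q : ℤ) ∣ round ((q : ℝ) * (α * ((z0 + r + 1 : ℕ) : ℝ))) -
        round ((q : ℝ) * (α * ((z0 + r0 + 1 : ℕ) : ℝ))) :=
      Int.dvd_of_emod_eq_zero (Int.emod_eq_emod_iff_emod_sub_eq_zero.1 h1)
    obtain ⟨k, hk⟩ := h2
    have a1 := abs_le.1 (abs_sub_round ((q : ℝ) * (α * ((z0 + r + 1 : ℕ) : ℝ))))
    have a2 := abs_le.1 (abs_sub_round ((q : ℝ) * (α * ((z0 + r0 + 1 : ℕ) : ℝ))))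
    have hkR : ((round ((q : ℝ) * (α * ((z0 + r + 1 : ℕ) : ℝ))) : ℤ) : ℝ) -
        ((round ((q : ℝ) * (α * ((z0 + r0 + 1 : ℕ) : ℝ))) : ℤ) : ℝ) = q * k := by
      exact_mod_cast hk
    -- the difference
    have h3 : |(q : ℝ) * (α - a / q) * ((r : ℝ) - r0)| < 1 := by
      rw [abs_mul, abs_mul, abs_of_pos hq0]
      have h4 : |(r : ℝ) - r0| ≤ q - 1 := by
        have r1 : (r : ℝ) ≤ q - 1 := by
          have : r + 1 ≤ q := hr.1
          have : (r : ℝ) + 1 ≤ q := by exact_mod_cast this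
          linarith
        have r2 : (r0 : ℝ) ≤ q - 1 := by
          have : r0 + 1 ≤ q := hr0.1
          have : (r0 : ℝ) + 1 ≤ q := by exact_mod_cast this
          linarith
        have r3 : (0 : ℝ) ≤ r := by positivity
        have r4 : (0 : ℝ) ≤ r0 := by positivity
        rw [abs_le]; constructor <;> linarith
      have h5 : (q : ℝ) * |α - a / q| ≤ 1 / q := by
        calc (q : ℝ) * |α - a / q| ≤ q * (1 / (q : ℝ) ^ 2) :=
              mul_le_mul_of_nonneg_left hα hq0.le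
          _ = 1 / q := by field_simp
      calc (q : ℝ) * |α - a / q| * |(r : ℝ) - r0| ≤ 1 / q * (q - 1) := by
            apply mul_le_mul h5 h4 (abs_nonneg _) (by positivity)
        _ < 1 := by
            rw [one_div, inv_mul_lt_iff₀ hq0]; linarith
    have h4 : (q : ℝ) * (α * ((z0 + r + 1 : ℕ) : ℝ)) - (q : ℝ) * (α * ((z0 + r0 + 1 : ℕ) : ℝ)) =
        a * ((r : ℝ) - r0) + (q : ℝ) * (α - a / q) * ((r : ℝ) - r0) := by
      push_cast
      field_simp
      ring
    have h3' := abs_lt.1 h3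
    have h5 : |(a : ℝ) * ((r : ℝ) - r0) - q * k| < 2 := by
      rw [abs_lt]; constructor <;> linarith [a1.1, a1.2, a2.1, a2.2, h3'.1, h3'.2]
    have h6 : |a * ((r : ℤ) - r0) - q * k| < 2 := by exact_mod_cast h5
    have h6' := abs_lt.1 h6
    rw [Finset.mem_biUnion]
    refine ⟨a * ((r : ℤ) - r0) - q * k, ?_, ?_⟩
    · rw [Finset.mem_Icc]; omega
    · rw [Finset.mem_filter, Finset.mem_range]
      exact ⟨hr.1, ⟨k, by ring⟩⟩
  have hcard : ((range q).filter fun r : ℕ => F r = m).card ≤ 3 := by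
    refine (Finset.card_le_card hsub).trans (Finset.card_biUnion_le.trans ?_)
    have : ∀ j ∈ Finset.Icc (-1 : ℤ) 1,
        ((range q).filter fun r : ℕ => (q : ℤ) ∣ a * ((r : ℤ) - r0) - j).card ≤ 1 := by
      intro j _
      rw [Finset.card_le_one]
      intro x hx y hy
      rw [Finset.mem_filter, Finset.mem_range] at hx hy
      have h1 : (q : ℤ) ∣ a * ((x : ℤ) - y) := by
        have := dvd_sub hx.2 hy.2
        have e : a * ((x : ℤ) - r0) - j - (a * ((y : ℤ) - r0) - j) = a * ((x : ℤ) - y) := by ring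
        rwa [e] at this
      have h2 : (q : ℤ) ∣ (x : ℤ) - y := IsCoprime.dvd_of_dvd_mul_left hc.symm h1
      have h3 : |(x : ℤ) - y| < q := by
        rw [abs_lt]; constructor <;> omega
      have h4 := Int.eq_zero_of_abs_lt_dvd h2 h3
      omega
    refine (Finset.sum_le_card_nsmul _ _ 1 this).trans ?_
    simp
  exact_mod_cast hcard

lemma block (α R : ℝ) (q z0 : ℕ) (a : ℤ) (hR : 1 ≤ R) (hq : 1 ≤ q) (hc : IsCoprime a (q : ℤ))
    (hα : |α - a / q| ≤ 1 / (q : ℝ) ^ 2) :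
    ∑ r ∈ range q, mn R (α * ((z0 + r + 1 : ℕ) : ℝ)) ≤ 3 * (R + 2 * q * (1 + Real.log q)) := by
  classical
  have hqZ : (0 : ℤ) < q := by exact_mod_cast hq
  set F : ℕ → ℕ := fun r =>
    ((round ((q : ℝ) * (α * ((z0 + r + 1 : ℕ) : ℝ))) : ℤ) % (q : ℤ)).toNat with hF
  have hFlt : ∀ r, F r < q := by
    intro r
    have e1 := Int.emod_nonneg (round ((q : ℝ) * (α * ((z0 + r + 1 : ℕ) : ℝ)))) hqZ.ne'
    have e2 := Int.emod_lt_of_pos (round ((q : ℝ) * (α * ((z0 + r + 1 : ℕ) : ℝ)))) hqZ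
    simp only [hF]
    omega
  have h1 : ∀ r ∈ range q, mn R (α * ((z0 + r + 1 : ℕ) : ℝ)) ≤ B R q (F r) := by
    intro r _
    apply mn_le_B R _ hR q (F r) hq (hFlt r)
    have e1 := Int.emod_nonneg (round ((q : ℝ) * (α * ((z0 + r + 1 : ℕ) : ℝ)))) hqZ.ne'
    simp only [hF]
    rw [Int.toNat_of_nonneg e1]
  have hB0 : ∀ m ∈ range q, 0 ≤ B R q m := by
    intro m _
    unfold B
    split_ifs
    · linarith
    · positivity
  calc ∑ r ∈ range q, mn R (α * ((z0 + r + 1 : ℕ) : ℝ)) ≤ ∑ r ∈ range q, B R q (F r) :=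
        Finset.sum_le_sum h1
    _ = ∑ m ∈ (range q).image F, ((range q).filter fun r => F r = m).card • B R q m :=
        Finset.sum_comp (B R q) F
    _ ≤ ∑ m ∈ (range q).image F, 3 * B R q m := by
        apply Finset.sum_le_sum
        intro m hm
        have hm' : m ∈ range q := by
          obtain ⟨r, _, rfl⟩ := Finset.mem_image.1 hm
          exact Finset.mem_range.2 (hFlt r)
        rw [nsmul_eq_mul]
        apply mul_le_mul_of_nonneg_right _ (hB0 m hm')
        exact fibre α q z0 a hq hc hα m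
    _ ≤ ∑ m ∈ range q, 3 * B R q m := by
        apply Finset.sum_le_sum_of_subset_of_nonneg
        · intro m hm
          obtain ⟨r, _, rfl⟩ := Finset.mem_image.1 hm
          exact Finset.mem_range.2 (hFlt r)
        · intro m hm _
          have := hB0 m hm
          linarith
    _ = 3 * ∑ m ∈ range q, B R q m := by rw [Finset.mul_sum]
    _ ≤ 3 * (R + 2 * q * (1 + Real.log q)) := by
        have := sum_B R q hq
        linarith

lemma blocks (f : ℕ → ℝ) (q : ℕ) (M : ℝ) (h : ∀ z0, ∑ r ∈ range q, f (z0 + r) ≤ M) (n : ℕ) :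
    ∑ z ∈ range (n * q), f z ≤ n * M := by
  induction n with
  | zero => simp
  | succ n ih =>
    rw [Nat.succ_mul, Finset.sum_range_add]
    have := h (n * q)
    push_cast
    linarith

theorem thm : G_MSUM := by
  refine ⟨6, ?_⟩
  intro α R q X a hR hq hX hc hα
  have hq0 : (0 : ℝ) < q := by exact_mod_cast hq
  have hq1 : (1 : ℝ) ≤ q := by exact_mod_cast hq
  have e1 : ∑ z ∈ Finset.Icc 1 X, mn R (α * z) = ∑ z ∈ range X, mn R (α * ((z + 1 : ℕ) : ℝ)) := by
    rw [Finset.range_eq_Ico, Finset.sum_Ico_add' (fun m : ℕ => mn R (α * (m : ℝ))) 0 X 1, zero_add]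
    apply Finset.sum_congr
    · ext x; simp only [Finset.mem_Ico, Finset.mem_Icc]; omega
    · intro x _; rfl
  rw [e1]
  set n : ℕ := X / q + 1 with hn
  have hnX : X ≤ n * q := by
    have h1 := Nat.div_add_mod X q
    have h2 := Nat.mod_lt X hq
    have h3 : n * q = q * (X / q) + q := by rw [hn]; ring
    omega
  have e2 : ∑ z ∈ range X, mn R (α * ((z + 1 : ℕ) : ℝ)) ≤
      ∑ z ∈ range (n * q), mn R (α * ((z + 1 : ℕ) : ℝ)) := by
    apply Finset.sum_le_sum_of_subset_of_nonneg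
    · exact Finset.range_subset_range.2 hnX
    · intro i _ _; exact mn_nonneg R _ hR
  have e3 := blocks (fun z => mn R (α * ((z + 1 : ℕ) : ℝ))) q
    (3 * (R + 2 * q * (1 + Real.log q)))
    (fun z0 => block α R q z0 a hR hq hc hα) n
  have e4 : (n : ℝ) ≤ (X : ℝ) / q + 1 := by
    rw [hn]; push_cast
    have := @Nat.cast_div_le ℝ _ _ _ X q
    linarith
  have hlog : 0 ≤ Real.log q := Real.log_nonneg hq1
  have e5 : 3 * (R + 2 * q * (1 + Real.log q)) ≤ 6 * (R + q * (1 + Real.log q)) := by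
    nlinarith
  have e6 : (0 : ℝ) ≤ 6 * (R + q * (1 + Real.log q)) := by positivity
  calc ∑ z ∈ range X, mn R (α * ((z + 1 : ℕ) : ℝ)) ≤ n * (3 * (R + 2 * q * (1 + Real.log q))) :=
        e2.trans e3
    _ ≤ n * (6 * (R + q * (1 + Real.log q))) := by
        apply mul_le_mul_of_nonneg_left e5 (by positivity)
    _ ≤ ((X : ℝ) / q + 1) * (6 * (R + q * (1 + Real.log q))) :=
        mul_le_mul_of_nonneg_right e4 e6
    _ = 6 * ((X : ℝ) / q + 1) * (R + q * (1 + Real.log q)) := by ring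

end Pool.Agent.Helper42.KS.PkMSUM
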