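import Pool.Agent.Helper89.KS.Goals

namespace Pool.Agent.Helper49.KS

open MeasureTheory Finset
open Pool.Agent.Helper89.GP Pool.Agent.Helper89.KS
open scoped ENNReal

lemma cf_meas {n : ℕ} (σ : Equiv.Perm (Fin n)) : Measurable (cf σ) := by
  refine measurable_pi_lambda _ fun a => ?_
  unfold cf ps
  refine Finset.measurable_sum _ fun j _ => ?_
  split_ifs
  · exact measurable_pi_apply j
  · exact measurable_const

/-- MUF -/
theorem muf (h1 : EnfStmt) : MufStmt := by
  classical
  intro n R hne
  have hP : IsProbabilityMeasure (En n) := (h1 n).1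
  have hm : ∀ σ : Equiv.Perm (Fin n), IsProbabilityMeasure ((En n).map (cf σ)) := fun σ =>
    Measure.isProbabilityMeasure_map (cf_meas σ).aemeasurable
  have hc0 : ((LX R).card : ℝ≥0∞) ≠ 0 := by
    exact_mod_cast hne.card_pos.ne'
  have hct : ((LX R).card : ℝ≥0∞) ≠ ⊤ := ENNReal.natCast_ne_top _
  have hev : ∀ A, MeasurableSet A → mu R A =
      ((LX R).card : ℝ≥0∞)⁻¹ * ∑ σ ∈ LX R, (En n) (cf σ ⁻¹' A) := by
    intro A hA
    unfold mu
    rw [Measure.smul_apply, Measure.finsetSum_apply, smul_eq_mul]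
    refine congrArg _ (Finset.sum_congr rfl fun σ _ => ?_)
    rw [Measure.map_apply (cf_meas σ) hA]
  have hprob : IsProbabilityMeasure (mu R) := by
    constructor
    rw [hev _ MeasurableSet.univ]
    simp only [Set.preimage_univ, measure_univ, Finset.sum_const, nsmul_eq_mul, mul_one]
    exact ENNReal.inv_mul_cancel hc0 hct
  refine ⟨hprob, ?_, ?_, ?_⟩
  · intro F hF hI
    have hI2 : ∀ σ ∈ LX R, Integrable F ((En n).map (cf σ)) := by
      intro σ hσ
      rw [integrable_map_measure hF.aestronglyMeasurable (cf_meas σ).aemeasurable]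
      exact hI σ hσ
    have hI3 : Integrable F (∑ σ ∈ LX R, (En n).map (cf σ)) := by
      rw [integrable_finsetSum_measure]
      exact hI2
    refine ⟨hI3.smul_measure (ENNReal.inv_ne_top.mpr hc0), ?_⟩
    unfold mu Ex
    rw [integral_smul_measure, integral_finsetSum_measure hI2, ENNReal.toReal_inv,
      ENNReal.toReal_natCast, smul_eq_mul, div_eq_inv_mul]
    refine congrArg _ (Finset.sum_congr rfl fun σ _ => ?_)
    rw [integral_map (cf_meas σ).aemeasurable hF.aestronglyMeasurable]
  · intro A hA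
    unfold Ex
    rw [measureReal_def, hev A hA, ENNReal.toReal_mul, ENNReal.toReal_inv,
      ENNReal.toReal_natCast, ENNReal.toReal_sum (fun σ _ => measure_ne_top _ _), div_eq_inv_mul]
    rfl
  · intro p hp hae
    rw [ae_iff]
    have hpc : MeasurableSet {v : Fin n → ℝ | ¬ p v} := hp.compl
    rw [hev _ hpc]
    have : ∑ σ ∈ LX R, (En n) (cf σ ⁻¹' {v : Fin n → ℝ | ¬ p v}) = 0 := by
      refine Finset.sum_eq_zero fun σ hσ => ?_
      exact ae_iff.mp (hae σ hσ)
    rw [this, mul_zero]

end Pool.Agent.Helper49.KS
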