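import Pool.Agent.Helper49.KS.Spec

/-!
A gap with a normal model is filled by a sequence of gaps with `L²` models.
-/

set_option autoImplicit false

namespace Pool.Agent.Helper49.KS

open scoped InnerProductSpace
open MeasureTheory

variable {X : Type*} [TopologicalSpace X] [CompactSpace X] [T2Space X] [MeasurableSpace X]
  [BorelSpace X]
variable {K : Type*} [NormedAddCommGroup K] [InnerProductSpace ℂ K] [CompleteSpace K]
variable {H : Type*} [NormedAddCommGroup H] [InnerProductSpace ℂ H] [CompleteSpace H]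

lemma pj_orth {E : Submodule ℂ K} (hE : IsClosed (E : Set K)) {u : K} (hu : u ∈ Eᗮ) :
    pj E u = 0 := by
  have h1 := pj_mem' hE u
  have h2 : ⟪pj E u, pj E u⟫_ℂ = 0 := by
    rw [pj_sym, pj_idem]
    exact Submodule.inner_left_of_mem_orthogonal h1 hu
  exact inner_self_eq_zero.mp h2

/-- closed subspaces invariant under the algebra -/
def Good (Φ : C(X, ℂ) →⋆ₐ[ℂ] (K →L[ℂ] K)) (E : Submodule ℂ K) : Prop :=
  IsClosed (E : Set K) ∧ ∀ f : C(X, ℂ), ∀ x ∈ E, Φ f x ∈ E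

/-- one step of the decomposition into cyclic subspaces -/
lemma step_exists (Φ : C(X, ℂ) →⋆ₐ[ℂ] (K →L[ℂ] K)) (E : Submodule ℂ K) (hE : Good Φ E) (d : K) :
    ∃ (μ : Measure X) (_ : IsFiniteMeasure μ) (U : Lp ℂ 2 μ →L[ℂ] K),
      (∀ w, ‖U w‖ = ‖w‖) ∧ (∀ w, U w ∈ Eᗮ) ∧ d ∈ im E U ⊤ ∧ Good Φ (im E U ⊤) ∧
      ∀ h : C(X, ℂ), ∃ m : Lp ℂ 2 μ →L[ℂ] Lp ℂ 2 μ, (∀ w, Φ h (U w) = U (m w)) ∧
        ∀ A : Set X, ∀ f ∈ La μ A, m f ∈ La μ A := by
  obtain ⟨μ, hμ, U, h1, ⟨w0, h2⟩, h3, h4⟩ := spec_model Φ (d - pj E d)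
  have hv : d - pj E d ∈ Eᗮ := by
    rw [Submodule.mem_orthogonal']
    intro w hw
    exact pj_sub_inner E d w hw
  have h5 : ∀ w, U w ∈ Eᗮ := h3 E hE.2 hv
  have hbelow : Below E U 1 := by
    intro w
    rw [pj_orth hE.1 (h5 w), sub_zero, h1, one_mul]
  refine ⟨μ, hμ, U, h1, h5, ?_, ⟨im_closed hE.1 one_pos hbelow isClosed_univ, ?_⟩, h4⟩
  · exact mem_im.mpr ⟨pj E d, pj_mem' hE.1 d, w0, Submodule.mem_top, by rw [h2]; abel⟩
  · intro f x hx
    obtain ⟨a, ha, w, hw, rfl⟩ := mem_im.mp hx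
    obtain ⟨m, hm, _⟩ := h4 f
    rw [map_add, hm]
    exact mem_im.mpr ⟨Φ f a, hE.2 f a ha, m w, Submodule.mem_top, rfl⟩

lemma im_assoc {A₀ : Submodule ℂ H} {S : K →L[ℂ] H} {E : Submodule ℂ K} {L : Type*}
    [NormedAddCommGroup L] [InnerProductSpace ℂ L] [CompleteSpace L] (U : L →L[ℂ] K)
    (G : Submodule ℂ L) : im A₀ S (im E U G) = im (im A₀ S E) (S.comp U) G := by
  ext v
  constructor
  · intro hv
    obtain ⟨a, ha, w, hw, rfl⟩ := mem_im.mp hv
    obtain ⟨b, hb, u, hu, rfl⟩ := mem_im.mp hw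
    refine mem_im.mpr ⟨a + S b, mem_im.mpr ⟨a, ha, b, hb, rfl⟩, u, hu, ?_⟩
    rw [map_add]
    show a + S b + S (U u) = _
    abel
  · intro hv
    obtain ⟨x, hx, u, hu, rfl⟩ := mem_im.mp hv
    obtain ⟨a, ha, b, hb, rfl⟩ := mem_im.mp hx
    refine mem_im.mpr ⟨a, ha, b + U u, mem_im.mpr ⟨b, hb, u, hu, rfl⟩, ?_⟩
    rw [map_add]
    show _ = a + S b + S (U u)
    abel

/-- the sequence of gaps inside a gap with a normal model -/
theorem normal_gap [TopologicalSpace.SeparableSpace H] [TopologicalSpace.SeparableSpace K]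
    {T : H →L[ℂ] H} {A₀ B₀ : Submodule ℂ H} (hA₀ : IsClosed (A₀ : Set H))
    (hT : ∀ x ∈ A₀, T x ∈ A₀) (Φ : C(X, ℂ) →⋆ₐ[ℂ] (K →L[ℂ] K)) (z : C(X, ℂ))
    {S : K →L[ℂ] H} {c : ℝ} (hc : 0 < c) (hS : Below A₀ S c)
    (hTS : ∀ k, T (S k) - S (Φ z k) ∈ A₀) (hB : B₀ = im A₀ S ⊤) :
    ∃ F : ℕ → Submodule ℂ H, F 0 = A₀ ∧ Monotone F ∧ (∀ n, F n ≤ B₀) ∧
      (∀ n, GapGood T (F n) (F (n + 1))) ∧
      ∀ v, (∀ n, inc (F n) (F (n + 1)) v = 0) → inc A₀ B₀ v = 0 := by
  classical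
  have hbot : Good Φ (⊥ : Submodule ℂ K) := by
    refine ⟨by simp, ?_⟩
    intro f x hx
    rw [Submodule.mem_bot] at hx ⊢
    rw [hx, map_zero]
  set d := TopologicalSpace.denseSeq K with hd
  have hstep : ∀ n, ∀ E : {E : Submodule ℂ K // Good Φ E}, ∃ E' : {E : Submodule ℂ K // Good Φ E},
      ∃ (μ : Measure X) (_ : IsFiniteMeasure μ) (U : Lp ℂ 2 μ →L[ℂ] K),
        E'.1 = im E.1 U ⊤ ∧ (∀ w, ‖U w‖ = ‖w‖) ∧ (∀ w, U w ∈ E.1ᗮ) ∧ d n ∈ E'.1 ∧
        ∀ h : C(X, ℂ), ∃ m : Lp ℂ 2 μ →L[ℂ] Lp ℂ 2 μ, (∀ w, Φ h (U w) = U (m w)) ∧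
          ∀ A : Set X, ∀ f ∈ La μ A, m f ∈ La μ A := by
    intro n E
    obtain ⟨μ, hμ, U, h1, h2, h3, h4, h5⟩ := step_exists Φ E.1 E.2 (d n)
    exact ⟨⟨im E.1 U ⊤, h4⟩, μ, hμ, U, rfl, h1, h2, h3, h5⟩
  choose nx hnx using hstep
  let E : ℕ → {E : Submodule ℂ K // Good Φ E} := fun n =>
    Nat.rec ⟨⊥, hbot⟩ (fun n E => nx n E) n
  have hEs : ∀ n, E (n + 1) = nx n (E n) := fun n => rfl
  have hE0 : (E 0).1 = ⊥ := rfl
  have hF0 : im A₀ S (E 0).1 = A₀ := by
    rw [hE0]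
    apply le_antisymm
    · intro v hv
      obtain ⟨a, ha, w, hw, rfl⟩ := mem_im.mp hv
      rw [Submodule.mem_bot] at hw
      rw [hw, map_zero, add_zero]; exact ha
    · exact im_base
  have hmono : Monotone (fun n => im A₀ S (E n).1) := by
    apply monotone_nat_of_le_succ
    intro n
    obtain ⟨μ, hμ, U, h1, h2, h3, h4, h5⟩ := hnx n (E n)
    rw [← hEs] at h1
    apply im_mono
    rw [h1]
    exact im_base
  refine ⟨fun n => im A₀ S (E n).1, hF0, hmono, ?_, ?_, ?_⟩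
  · intro n
    rw [hB]
    exact im_mono le_top
  · intro n
    obtain ⟨μ, hμ, U, h1, h2, h3, h4, h5⟩ := hnx n (E n)
    rw [← hEs] at h1
    have hFc : IsClosed ((im A₀ S (E n).1 : Submodule ℂ H) : Set H) :=
      im_closed hA₀ hc hS (E n).2.1
    have hFT : ∀ x ∈ im A₀ S (E n).1, T x ∈ im A₀ S (E n).1 := by
      intro x hx
      obtain ⟨a, ha, w, hw, rfl⟩ := mem_im.mp hx
      refine mem_im.mpr ⟨T a + (T (S w) - S (Φ z w)), Submodule.add_mem _ (hT a ha) (hTS w),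
        Φ z w, (E n).2.2 z w hw, ?_⟩
      rw [map_add]; abel
    have hbel : Below (im A₀ S (E n).1) (S.comp U) c := by
      intro w
      show c * ‖w‖ ≤ ‖S (U w) - pj (im A₀ S (E n).1) (S (U w))‖
      obtain ⟨a, ha, k, hk, hak⟩ := mem_im.mp (pj_mem' hFc (S (U w)))
      rw [← hak]
      have e1 : S (U w) - (a + S k) = -a + S (U w - k) := by rw [map_sub]; abel
      rw [e1]
      have e2 := hS.bound (A₀.neg_mem ha) (U w - k)
      have e3 : ‖w‖ ≤ ‖U w - k‖ := by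
        have e4 : ⟪U w, -k⟫_ℂ = 0 := by
          rw [inner_neg_right, Submodule.inner_left_of_mem_orthogonal hk (h3 w), neg_zero]
        have e5 := norm_add_sq_of_inner e4
        rw [← sub_eq_add_neg, h2] at e5
        have e6 : ‖w‖ ^ 2 ≤ ‖U w - k‖ ^ 2 := by rw [e5]; nlinarith [sq_nonneg ‖-k‖]
        exact le_of_sq_le_sq e6 (norm_nonneg _)
      calc c * ‖w‖ ≤ c * ‖U w - k‖ := by gcongr
        _ ≤ _ := e2
    have key := gapGood_of_L2 (μ := μ) (T := T) hFc hFT hc hbel (by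
      intro A _ f hf
      obtain ⟨m, hm1, hm2⟩ := h5 z
      refine ⟨m f, hm2 A f hf, ?_⟩
      show T (S (U f)) - S (U (m f)) ∈ _
      rw [← hm1]
      exact im_base (hTS _))
    have e1 : Mc (im A₀ S (E n).1) (S.comp U) Set.univ = im A₀ S (E (n + 1)).1 := by
      rw [h1, im_assoc]
      have : La μ (Set.univ : Set X) = ⊤ := by
        rw [eq_top_iff]
        intro w _
        exact mem_La_univ w
      rw [Mc, this]
    rw [e1] at key
    exact key
  · intro v hv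
    have h0 : ∀ n, inc A₀ (im A₀ S (E n).1) v = 0 := by
      intro n
      induction n with
      | zero => rw [hF0, inc_self]
      | succ n ih =>
        rw [← inc_add A₀ (im A₀ S (E n).1) (im A₀ S (E (n + 1)).1) v, ih, hv n, add_zero]
    set u := inc A₀ B₀ v with hu
    have hAB : A₀ ≤ B₀ := by rw [hB]; exact im_base
    have hBc : IsClosed (B₀ : Set H) := by
      rw [hB]; exact im_closed hA₀ hc hS isClosed_univ
    have huB : u ∈ B₀ := by
      rw [hu, inc_apply]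
      exact Submodule.sub_mem _ (pj_mem' hBc v) (hAB (pj_mem' hA₀ v))
    have horth : ∀ n, ∀ w ∈ im A₀ S (E n).1, ⟪u, w⟫_ℂ = 0 := by
      intro n w hw
      have hwB : w ∈ B₀ := by rw [hB]; exact im_mono le_top hw
      have e1 : inc A₀ B₀ w = inc A₀ (im A₀ S (E n).1) w := by
        rw [inc_apply, inc_apply, pj_eq_self hw, pj_eq_self hwB]
      rw [hu, inc_sym, e1, ← inc_sym, h0, inner_zero_left]
    have huB' := huB
    rw [hB] at huB'
    obtain ⟨a, ha, k, _, hak⟩ := mem_im.mp huB'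
    have hall : ∀ k : K, ⟪u, a + S k⟫_ℂ = 0 := by
      intro k
      refine (TopologicalSpace.denseRange_denseSeq K).induction_on
        (p := fun k => ⟪u, a + S k⟫_ℂ = 0) k ?_ ?_
      · exact isClosed_eq (by fun_prop) (by fun_prop)
      · intro n
        obtain ⟨μ, hμ, U, h1, h2, h3, h4, h5⟩ := hnx n (E n)
        rw [← hEs] at h4
        exact horth (n + 1) _ (mem_im.mpr ⟨a, ha, _, h4, rfl⟩)
    have := hall k
    rw [hak] at this
    exact inner_self_eq_zero.mp this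

/-- a space embedded by a bounded below operator in a separable space is separable -/
lemma separable_of_below [TopologicalSpace.SeparableSpace H] {S : K →L[ℂ] H} {c : ℝ} (hc : 0 < c)
    (hS : ∀ k, c * ‖k‖ ≤ ‖S k‖) : TopologicalSpace.SeparableSpace K := by
  have hA : AntilipschitzWith (Real.toNNReal c⁻¹) S := by
    refine AddMonoidHomClass.antilipschitz_of_bound S ?_
    intro w
    rw [Real.coe_toNNReal _ (by positivity)]
    have := hS w
    rw [inv_mul_eq_div, le_div_iff₀ hc]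
    linarith
  have h1 : Topology.IsClosedEmbedding S := hA.isClosedEmbedding S.uniformContinuous
  haveI : SecondCountableTopology H := UniformSpace.secondCountable_of_separable H
  haveI : SecondCountableTopology K := h1.toIsEmbedding.secondCountableTopology
  infer_instance

end Pool.Agent.Helper49.KS
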