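import Mathlib

/-!
Projections onto a chain of subspaces, paths of nearly parallel increments, and the criterion for
the commutant of the projections to be commutative.
-/

set_option autoImplicit false

namespace Pool.Agent.Helper49.KS

open scoped InnerProductSpace

variable {H : Type*} [NormedAddCommGroup H] [InnerProductSpace ℂ H] [CompleteSpace H]

/-- the orthogonal projection onto the closure of `M` -/
noncomputable def pj (M : Submodule ℂ H) : H →L[ℂ] H := M.topologicalClosure.starProjection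

lemma pj_mem (M : Submodule ℂ H) (v : H) : pj M v ∈ M.topologicalClosure :=
  Submodule.starProjection_apply_mem _ v

lemma pj_mem' {M : Submodule ℂ H} (hM : IsClosed (M : Set H)) (v : H) : pj M v ∈ M := by
  have h := pj_mem M v
  rwa [hM.submodule_topologicalClosure_eq] at h

lemma pj_eq_self {M : Submodule ℂ H} {v : H} (hv : v ∈ M) : pj M v = v :=
  Submodule.starProjection_eq_self_iff.mpr (M.le_topologicalClosure hv)

lemma pj_sym (M : Submodule ℂ H) (u v : H) : ⟪pj M u, v⟫_ℂ = ⟪u, pj M v⟫_ℂ :=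
  Submodule.inner_starProjection_left_eq_right _ u v

lemma pj_sub_inner (M : Submodule ℂ H) (v w : H) (hw : w ∈ M) : ⟪v - pj M v, w⟫_ℂ = 0 :=
  Submodule.starProjection_inner_eq_zero v w (M.le_topologicalClosure hw)

lemma pj_comp_le {M N : Submodule ℂ H} (h : M ≤ N) (v : H) : pj M (pj N v) = pj M v := by
  have h' : M.topologicalClosure ≤ N.topologicalClosure := Submodule.topologicalClosure_mono h
  have := Submodule.starProjection_comp_starProjection_of_le h'
  exact congrArg (fun f : H →L[ℂ] H => f v) this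

lemma pj_comp_le' {M N : Submodule ℂ H} (h : M ≤ N) (v : H) : pj N (pj M v) = pj M v :=
  Submodule.starProjection_eq_self_iff.mpr (Submodule.topologicalClosure_mono h (pj_mem M v))

lemma pj_idem (M : Submodule ℂ H) (v : H) : pj M (pj M v) = pj M v := pj_comp_le le_rfl v

lemma pj_norm_le (M : Submodule ℂ H) (v : H) : ‖pj M v‖ ≤ ‖v‖ :=
  Submodule.norm_starProjection_apply_le _ v

lemma pj_bot : pj (⊥ : Submodule ℂ H) = 0 := by
  have : (⊥ : Submodule ℂ H).topologicalClosure = ⊥ := by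
    have : IsClosed ((⊥ : Submodule ℂ H) : Set H) := by simp
    exact this.submodule_topologicalClosure_eq
  ext v
  have h := pj_mem (⊥ : Submodule ℂ H) v
  rw [this] at h
  simpa using h

lemma pj_top : pj (⊤ : Submodule ℂ H) = 1 := by
  ext v
  exact pj_eq_self (Submodule.mem_top)

/-- increments -/
noncomputable def inc (M N : Submodule ℂ H) : H →L[ℂ] H := pj N - pj M

lemma inc_apply (M N : Submodule ℂ H) (v : H) : inc M N v = pj N v - pj M v := rfl

lemma inc_sym (M N : Submodule ℂ H) (u v : H) : ⟪inc M N u, v⟫_ℂ = ⟪u, inc M N v⟫_ℂ := by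
  simp only [inc_apply, inner_sub_left, inner_sub_right, pj_sym]

lemma inc_add (L M N : Submodule ℂ H) (v : H) : inc L M v + inc M N v = inc L N v := by
  simp only [inc_apply]; abel

lemma inc_orth {L M N : Submodule ℂ H} (h1 : L ≤ M) (h2 : M ≤ N) (u v : H) :
    ⟪inc L M u, inc M N v⟫_ℂ = 0 := by
  rw [inc_sym]
  have : inc L M (inc M N v) = 0 := by
    simp only [inc_apply, map_sub, pj_comp_le h2, pj_comp_le h1, pj_comp_le (h1.trans h2),
      pj_idem]
    abel
  rw [this, inner_zero_right]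

lemma norm_add_sq_of_inner {u v : H} (h : ⟪u, v⟫_ℂ = 0) : ‖u + v‖ ^ 2 = ‖u‖ ^ 2 + ‖v‖ ^ 2 := by
  have := norm_add_sq_eq_norm_sq_add_norm_sq_of_inner_eq_zero (𝕜 := ℂ) u v h
  nlinarith [this]

lemma inc_pyth {L M N : Submodule ℂ H} (h1 : L ≤ M) (h2 : M ≤ N) (v : H) :
    ‖inc L N v‖ ^ 2 = ‖inc L M v‖ ^ 2 + ‖inc M N v‖ ^ 2 := by
  rw [← inc_add L M N v]
  exact norm_add_sq_of_inner (inc_orth h1 h2 v v)

lemma inc_self (M : Submodule ℂ H) (v : H) : inc M M v = 0 := by simp [inc_apply]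

lemma inc_idem {M N : Submodule ℂ H} (h : M ≤ N) (v : H) : inc M N (inc M N v) = inc M N v := by
  simp only [inc_apply, map_sub, pj_comp_le h, pj_comp_le' h, pj_idem]
  abel

lemma inc_norm_le {M N : Submodule ℂ H} (h : M ≤ N) (v : H) : ‖inc M N v‖ ≤ ‖v‖ := by
  have h1 : ⟪inc M N v, inc M N v⟫_ℂ = ⟪v, inc M N v⟫_ℂ := by
    rw [inc_sym, inc_idem h]
  have h2 : ‖inc M N v‖ ^ 2 ≤ ‖v‖ * ‖inc M N v‖ := by
    have := norm_inner_le_norm (𝕜 := ℂ) v (inc M N v)
    rw [← h1, inner_self_eq_norm_sq_to_K] at this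
    simpa using this
  by_contra hc
  push_neg at hc
  have h3 : 0 < ‖inc M N v‖ := lt_of_le_of_lt (norm_nonneg _) hc
  nlinarith

/-- `X` leaves invariant `M` and its orthogonal complement -/
def Red (X : H →L[ℂ] H) (M : Submodule ℂ H) : Prop :=
  (∀ x ∈ M, X x ∈ M) ∧ (∀ x ∈ Mᗮ, X x ∈ Mᗮ)

lemma Red.comm {X : H →L[ℂ] H} {M : Submodule ℂ H} (hM : IsClosed (M : Set H)) (h : Red X M)
    (v : H) : X (pj M v) = pj M (X v) := by
  have h1 : v = pj M v + (v - pj M v) := by abel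
  have h2 : v - pj M v ∈ Mᗮ := by
    rw [Submodule.mem_orthogonal']
    intro w hw
    exact pj_sub_inner M v w hw
  have h3 : X (v - pj M v) ∈ Mᗮ := h.2 _ h2
  have h4 : pj M (X (v - pj M v)) = 0 := by
    have h5 := pj_mem' hM (X (v - pj M v))
    have h6 : ⟪pj M (X (v - pj M v)), pj M (X (v - pj M v))⟫_ℂ = 0 := by
      rw [pj_sym, pj_idem]
      exact Submodule.inner_left_of_mem_orthogonal h5 h3
    exact inner_self_eq_zero.mp h6
  have h7 : pj M (X (pj M v)) = X (pj M v) := pj_eq_self (h.1 _ (pj_mem' hM v))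
  have h8 : pj M (X v) = pj M (X (pj M v)) + pj M (X (v - pj M v)) := by
    rw [← map_add, ← map_add, ← h1]
  rw [h8, h4, h7, add_zero]

/-- A path in `C` from `M` to `N` with total defect `r` for the pair of vectors `e`, `h`. -/
inductive Par (C : Set (Submodule ℂ H)) (e h : H) (M : Submodule ℂ H) :
    Submodule ℂ H → ℝ → Prop
  | nil : M ∈ C → Par C e h M M 0
  | step {N N' : Submodule ℂ H} {r : ℝ} (α β : ℂ) : Par C e h M N r → N ≤ N' → N' ∈ C →
      ‖α‖ ^ 2 + ‖β‖ ^ 2 = 1 → Par C e h M N' (r + ‖inc N N' (α • e - β • h)‖ ^ 2)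

namespace Par

variable {C : Set (Submodule ℂ H)} {e h : H} {M N : Submodule ℂ H} {r : ℝ}

lemma le (p : Par C e h M N r) : M ≤ N := by
  induction p with
  | nil _ => exact le_rfl
  | step α β _ h1 _ _ ih => exact ih.trans h1

lemma mem_left (p : Par C e h M N r) : M ∈ C := by
  induction p with
  | nil h => exact h
  | step α β _ h1 _ _ ih => exact ih

lemma mem_right (p : Par C e h M N r) : N ∈ C := by
  cases p with
  | nil h => exact h
  | step α β _ h1 h2 _ => exact h2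

lemma nonneg (p : Par C e h M N r) : 0 ≤ r := by
  induction p with
  | nil _ => exact le_rfl
  | step α β _ h1 _ _ ih => positivity

lemma mono {C' : Set (Submodule ℂ H)} (hC : C ⊆ C') (p : Par C e h M N r) : Par C' e h M N r := by
  induction p with
  | nil h => exact Par.nil (hC h)
  | step α β _ h1 h2 h3 ih => exact Par.step α β ih h1 (hC h2) h3

lemma trans {L : Submodule ℂ H} {s : ℝ} (p : Par C e h M N r) (q : Par C e h N L s) :
    Par C e h M L (r + s) := by
  induction q with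
  | nil _ => simpa using p
  | step α β _ h1 h2 h3 ih =>
    have := Par.step α β ih h1 h2 h3
    rwa [add_assoc] at this

/-- change of vectors -/
lemma perturb (p : Par C e h M N r) (e' h' : H) :
    ∃ r', r' ≤ 2 * r + 4 * (‖inc M N (e' - e)‖ ^ 2 + ‖inc M N (h' - h)‖ ^ 2) ∧
      Par C e' h' M N r' := by
  induction p with
  | nil h0 => exact ⟨0, by simp [inc_self], Par.nil h0⟩
  | @step N N' r α β p h1 h2 h3 ih =>
    obtain ⟨r', h4, h5⟩ := ih
    refine ⟨_, ?_, Par.step α β h5 h1 h2 h3⟩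
    have h6 : inc N N' (α • e' - β • h') = inc N N' (α • e - β • h) +
        (α • inc N N' (e' - e) - β • inc N N' (h' - h)) := by
      simp only [map_sub, map_smul, smul_sub]; abel
    have h7 : ‖inc N N' (α • e' - β • h')‖ ^ 2 ≤ 2 * ‖inc N N' (α • e - β • h)‖ ^ 2 +
        2 * ‖α • inc N N' (e' - e) - β • inc N N' (h' - h)‖ ^ 2 := by
      rw [h6]
      have := norm_add_le (inc N N' (α • e - β • h))
        (α • inc N N' (e' - e) - β • inc N N' (h' - h))
      nlinarith [sq_nonneg (‖inc N N' (α • e - β • h)‖ -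
        ‖α • inc N N' (e' - e) - β • inc N N' (h' - h)‖), norm_nonneg (inc N N' (α • e - β • h) +
        (α • inc N N' (e' - e) - β • inc N N' (h' - h)))]
    have hα : ‖α‖ ≤ 1 := by nlinarith [norm_nonneg α, sq_nonneg ‖β‖]
    have hβ : ‖β‖ ≤ 1 := by nlinarith [norm_nonneg β, sq_nonneg ‖α‖]
    have h8 : ‖α • inc N N' (e' - e) - β • inc N N' (h' - h)‖ ^ 2 ≤
        2 * ‖inc N N' (e' - e)‖ ^ 2 + 2 * ‖inc N N' (h' - h)‖ ^ 2 := by
      have h9 := norm_sub_le (α • inc N N' (e' - e)) (β • inc N N' (h' - h))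
      rw [norm_smul, norm_smul] at h9
      have h10 : ‖α‖ * ‖inc N N' (e' - e)‖ ≤ ‖inc N N' (e' - e)‖ :=
        mul_le_of_le_one_left (norm_nonneg _) hα
      have h11 : ‖β‖ * ‖inc N N' (h' - h)‖ ≤ ‖inc N N' (h' - h)‖ :=
        mul_le_of_le_one_left (norm_nonneg _) hβ
      nlinarith [sq_nonneg (‖inc N N' (e' - e)‖ - ‖inc N N' (h' - h)‖),
        norm_nonneg (α • inc N N' (e' - e) - β • inc N N' (h' - h)),
        norm_nonneg (inc N N' (e' - e)), norm_nonneg (inc N N' (h' - h))]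
    have h12 := inc_pyth p.le h1 (e' - e)
    have h13 := inc_pyth p.le h1 (h' - h)
    nlinarith

end Par

/-- the projections onto the members of `C` commute with `X` -/
def Comm (C : Set (Submodule ℂ H)) (X : H →L[ℂ] H) : Prop :=
  ∀ M ∈ C, ∀ v, X (pj M v) = pj M (X v)

lemma Comm.inc {C : Set (Submodule ℂ H)} {X : H →L[ℂ] H} (hX : Comm C X) {M N : Submodule ℂ H}
    (hM : M ∈ C) (hN : N ∈ C) (v : H) : X (inc M N v) = inc M N (X v) := by
  simp only [inc_apply, map_sub, hX M hM, hX N hN]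

/-- One increment: the coefficient. -/
lemma coeff_exists {C : Set (Submodule ℂ H)} {X : H →L[ℂ] H} (hX : Comm C X)
    {M N : Submodule ℂ H} (hM : M ∈ C) (hN : N ∈ C) (e : H) (K : ℝ) (hK : ‖X‖ ≤ K)
    (hK1 : 1 ≤ K) (α β : ℂ) (hab : ‖α‖ ^ 2 + ‖β‖ ^ 2 = 1) :
    ∃ c : ℂ, ‖c‖ ≤ 2 * K ∧
      ‖inc M N (X e) - c • inc M N e‖ ≤ 4 * K * ‖inc M N (α • e - β • X e)‖ := by
  set q := ‖inc M N (α • e - β • X e)‖ with hq
  have hα0 := norm_nonneg α
  have hβ0 := norm_nonneg β
  have hα : ‖α‖ ≤ 1 := by nlinarith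
  have hxe : ‖inc M N (X e)‖ ≤ K * ‖inc M N e‖ := by
    rw [← hX.inc hM hN]
    exact (X.le_opNorm _).trans (mul_le_mul_of_nonneg_right hK (norm_nonneg _))
  have hq' : inc M N (α • e - β • X e) = α • inc M N e - β • inc M N (X e) := by
    simp only [map_sub, map_smul]
  by_cases hb : 1 / (2 * K) ≤ ‖β‖
  · have hb0 : 0 < ‖β‖ := lt_of_lt_of_le (by positivity) hb
    have hbne : β ≠ 0 := norm_pos_iff.mp hb0
    have hinv : 1 / ‖β‖ ≤ 2 * K := by
      rw [div_le_iff₀ hb0]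
      rw [div_le_iff₀ (by positivity)] at hb
      linarith
    refine ⟨α / β, ?_, ?_⟩
    · rw [norm_div]
      calc ‖α‖ / ‖β‖ ≤ 1 / ‖β‖ := by gcongr
        _ ≤ 2 * K := hinv
    · have : inc M N (X e) - (α / β) • inc M N e = -(β⁻¹) • inc M N (α • e - β • X e) := by
        rw [hq', smul_sub, smul_smul, smul_smul]
        have h1 : -β⁻¹ * α = -(α / β) := by field_simp
        have h2 : -β⁻¹ * β = -1 := by field_simp
        rw [h1, h2]
        simp only [neg_smul, one_smul]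
        abel
      rw [this, norm_smul, norm_neg, norm_inv, ← hq]
      have : ‖β‖⁻¹ ≤ 4 * K := by
        rw [← one_div]; linarith
      exact mul_le_mul_of_nonneg_right this (norm_nonneg _)
  · push_neg at hb
    refine ⟨0, by simp; linarith, ?_⟩
    rw [zero_smul, sub_zero]
    have hbK : ‖β‖ * K ≤ 1 / 2 := by
      have : ‖β‖ * (2 * K) < 1 := by
        rwa [lt_div_iff₀ (by positivity)] at hb
      linarith
    have hb2 : ‖β‖ ≤ 1 / 2 := by nlinarith
    have ha2 : 3 / 4 ≤ ‖α‖ := by nlinarith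
    have h1 : ‖α‖ * ‖inc M N e‖ - ‖β‖ * ‖inc M N (X e)‖ ≤ q := by
      rw [hq, hq', ← norm_smul, ← norm_smul]
      exact norm_sub_norm_le _ _
    have h2 : ‖β‖ * ‖inc M N (X e)‖ ≤ 1 / 2 * ‖inc M N e‖ := by
      calc ‖β‖ * ‖inc M N (X e)‖ ≤ ‖β‖ * (K * ‖inc M N e‖) := by gcongr
        _ = (‖β‖ * K) * ‖inc M N e‖ := by ring
        _ ≤ 1 / 2 * ‖inc M N e‖ := by gcongr
    have h3 : ‖inc M N e‖ ≤ 4 * q := by
      nlinarith [norm_nonneg (inc M N e)]
    calc ‖inc M N (X e)‖ ≤ K * ‖inc M N e‖ := hxe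
      _ ≤ K * (4 * q) := by gcongr
      _ = 4 * K * q := by ring

lemma pj_comm_of {M N : Submodule ℂ H} (h : M ≤ N ∨ N ≤ M) (v : H) :
    pj M (pj N v) = pj N (pj M v) := by
  rcases h with h | h
  · rw [pj_comp_le h, pj_comp_le' h]
  · rw [pj_comp_le h, pj_comp_le' h]

lemma inc_inc_zero {L M N : Submodule ℂ H} (h1 : L ≤ M) (h2 : M ≤ N) (v : H) :
    inc L M (inc M N v) = 0 := by
  simp only [inc_apply, map_sub, pj_comp_le h2, pj_comp_le h1, pj_comp_le (h1.trans h2), pj_idem]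
  abel

lemma inc_inc_zero' {L M N : Submodule ℂ H} (h1 : L ≤ M) (h2 : M ≤ N) (v : H) :
    inc M N (inc L M v) = 0 := by
  simp only [inc_apply, map_sub, pj_comp_le' h2, pj_comp_le' h1, pj_comp_le' (h1.trans h2),
    pj_idem]
  abel

lemma comm_inc {C : Set (Submodule ℂ H)} (hC : IsChain (· ≤ ·) C) {M N : Submodule ℂ H}
    (hM : M ∈ C) (hN : N ∈ C) : Comm C (inc M N) := by
  intro P hP v
  simp only [inc_apply, map_sub]
  rw [pj_comm_of (hC.total hN hP), pj_comm_of (hC.total hM hP)]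

/-- The approximant along a path. -/
lemma approx_path {C : Set (Submodule ℂ H)} (hC : IsChain (· ≤ ·) C) {X : H →L[ℂ] H}
    (hX : Comm C X) (e : H) (K : ℝ)
    (hK : ‖X‖ ≤ K) (hK1 : 1 ≤ K) {M N : Submodule ℂ H} {r : ℝ} (p : Par C e (X e) M N r) :
    ∃ m : H →L[ℂ] H, (∀ Y, Comm C Y → ∀ v, Y (m v) = m (Y v)) ∧ Comm C m ∧
      (∀ v, inc M N (m v) = m v) ∧ (∀ v, m v = m (inc M N v)) ∧
      (∀ v, ‖m v‖ ^ 2 ≤ (2 * K) ^ 2 * ‖inc M N v‖ ^ 2) ∧
      ‖inc M N (X e) - m e‖ ^ 2 ≤ (4 * K) ^ 2 * r := by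
  induction p with
  | nil h0 =>
    refine ⟨0, ?_, ?_, ?_, ?_, ?_, ?_⟩
    · intro Y _ v; simp
    · intro P _ v; simp
    · intro v; simp
    · intro v; simp
    · intro v; simp [inc_self]
    · simp [inc_self]
  | @step N N' r α β p h1 h2 h3 ih =>
    obtain ⟨m, a1, a2, a3, a4, a5, a6⟩ := ih
    obtain ⟨c, hc1, hc2⟩ := coeff_exists hX p.mem_right h2 e K hK hK1 α β h3
    have hD := comm_inc hC p.mem_right h2
    have horth : ∀ v w, ⟪m v, inc N N' w⟫_ℂ = 0 := by
      intro v w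
      rw [← a3 v, inc_sym, inc_inc_zero p.le h1, inner_zero_right]
    refine ⟨m + c • inc N N', ?_, ?_, ?_, ?_, ?_, ?_⟩
    · intro Y hY v
      simp only [ContinuousLinearMap.add_apply, ContinuousLinearMap.smul_apply, map_add, map_smul]
      rw [a1 Y hY, hY.inc p.mem_right h2]
    · intro P hP v
      simp only [ContinuousLinearMap.add_apply, ContinuousLinearMap.smul_apply, map_add, map_smul]
      rw [a2 P hP, hD P hP]
    · intro v
      simp only [ContinuousLinearMap.add_apply, ContinuousLinearMap.smul_apply, map_add, map_smul]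
      rw [← inc_add M N N' (m v), ← inc_add M N N' (inc N N' v), a3, inc_inc_zero p.le h1,
        inc_idem h1]
      have : inc N N' (m v) = 0 := by rw [← a3 v, inc_inc_zero' p.le h1]
      rw [this]
      simp
    · intro v
      simp only [ContinuousLinearMap.add_apply, ContinuousLinearMap.smul_apply]
      have e1 : m (inc M N' v) = m v := by
        rw [a4 (inc M N' v), a4 v, ← inc_add M N N' v, map_add, inc_inc_zero p.le h1, inc_idem p.le,
          add_zero]
      have e2 : inc N N' (inc M N' v) = inc N N' v := by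
        rw [← inc_add M N N' v, map_add, inc_inc_zero' p.le h1, inc_idem h1, zero_add]
      rw [e1, e2]
    · intro v
      simp only [ContinuousLinearMap.add_apply, ContinuousLinearMap.smul_apply]
      have e1 : ⟪m v, c • inc N N' v⟫_ℂ = 0 := by rw [inner_smul_right, horth, mul_zero]
      rw [norm_add_sq_of_inner e1, norm_smul, inc_pyth p.le h1 v]
      have e2 := a5 v
      have e3 : (‖c‖ * ‖inc N N' v‖) ^ 2 ≤ (2 * K) ^ 2 * ‖inc N N' v‖ ^ 2 := by
        rw [mul_pow]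
        gcongr
      linarith
    · simp only [ContinuousLinearMap.add_apply, ContinuousLinearMap.smul_apply]
      have e1 : inc M N' (X e) - (m e + c • inc N N' e) =
          (inc M N (X e) - m e) + (inc N N' (X e) - c • inc N N' e) := by
        rw [← inc_add M N N' (X e)]; abel
      have e2 : ⟪inc M N (X e) - m e, inc N N' (X e) - c • inc N N' e⟫_ℂ = 0 := by
        have : inc N N' (X e) - c • inc N N' e = inc N N' (X e - c • e) := by
          simp only [map_sub, map_smul]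
        rw [this, inner_sub_left, horth, inc_orth p.le h1, sub_zero]
      rw [e1, norm_add_sq_of_inner e2, mul_add]
      have e3 : ‖inc N N' (X e) - c • inc N N' e‖ ^ 2 ≤
          (4 * K) ^ 2 * ‖inc N N' (α • e - β • X e)‖ ^ 2 := by
        rw [← mul_pow]
        gcongr
      linarith

/-- The criterion. -/
theorem comm_of_par {C : Set (Submodule ℂ H)} (hC : IsChain (· ≤ ·) C) {M N : Submodule ℂ H}
    (hpar : ∀ e h : H, ∀ ε > 0, ∃ r ≤ ε, Par C e h M N r) (X Y : H →L[ℂ] H)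
    (hX : Comm C X) (hY : Comm C Y) (v : H) : X (Y (inc M N v)) = Y (X (inc M N v)) := by
  have hMN : M ≤ N := by
    obtain ⟨r, _, p⟩ := hpar 0 0 1 one_pos
    exact p.le
  have hM : M ∈ C := by
    obtain ⟨r, _, p⟩ := hpar 0 0 1 one_pos
    exact p.mem_left
  have hN : N ∈ C := by
    obtain ⟨r, _, p⟩ := hpar 0 0 1 one_pos
    exact p.mem_right
  set K := 1 + ‖X‖ + ‖Y‖ with hKdef
  have hX0 := norm_nonneg X
  have hY0 := norm_nonneg Y
  have hKX : ‖X‖ ≤ K := by linarith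
  have hKY : ‖Y‖ ≤ K := by linarith
  have hK1 : 1 ≤ K := by linarith
  set e := inc M N v with he
  have hee : inc M N e = e := inc_idem hMN v
  rw [← sub_eq_zero, ← norm_eq_zero]
  refine le_antisymm (le_of_forall_pos_le_add ?_) (norm_nonneg _)
  intro ε hε
  have key : ∀ Z : H →L[ℂ] H, Comm C Z → ‖Z‖ ≤ K → ∃ m : H →L[ℂ] H,
      (∀ Y, Comm C Y → ∀ v, Y (m v) = m (Y v)) ∧ Comm C m ∧ (∀ v, ‖m v‖ ≤ 2 * K * ‖v‖) ∧
      ‖Z e - m e‖ ≤ ε / (6 * K) := by
    intro Z hZ hKZ
    obtain ⟨r, hr, p⟩ := hpar e (Z e) ((ε / (6 * K)) ^ 2 / (4 * K) ^ 2) (by positivity)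
    obtain ⟨m, a1, a2, a3, a4, a5, a6⟩ := approx_path hC hZ e K hKZ hK1 p
    refine ⟨m, a1, a2, ?_, ?_⟩
    · intro v
      have h1 := a5 v
      have h2 := pow_le_pow_left₀ (norm_nonneg _) (inc_norm_le hMN v) 2
      have h3 : ‖m v‖ ^ 2 ≤ (2 * K * ‖v‖) ^ 2 := by
        rw [mul_pow]
        exact h1.trans (by gcongr)
      exact le_of_sq_le_sq h3 (by positivity)
    · rw [← hZ.inc hM hN, hee] at a6
      have h1 : ‖Z e - m e‖ ^ 2 ≤ (ε / (6 * K)) ^ 2 := by
        refine a6.trans ?_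
        calc (4 * K) ^ 2 * r ≤ (4 * K) ^ 2 * ((ε / (6 * K)) ^ 2 / (4 * K) ^ 2) := by gcongr
          _ = (ε / (6 * K)) ^ 2 := by field_simp
      exact le_of_sq_le_sq h1 (by positivity)
  obtain ⟨m, m1, m2, m3, m4⟩ := key X hX hKX
  obtain ⟨n, n1, n2, n3, n4⟩ := key Y hY hKY
  have hmn : m (n e) = n (m e) := n1 m m2 e
  have e1 : X (Y e) - Y (X e) = (X (Y e - n e) + n (X e - m e)) - (Y (X e - m e) + m (Y e - n e)) := by
    simp only [map_sub]
    rw [n1 X hX e, m1 Y hY e, hmn]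
    abel
  have b1 : ‖X (Y e - n e)‖ ≤ K * (ε / (6 * K)) :=
    (X.le_opNorm _).trans (mul_le_mul hKX n4 (norm_nonneg _) (by linarith))
  have b2 : ‖n (X e - m e)‖ ≤ 2 * K * (ε / (6 * K)) :=
    (n3 _).trans (mul_le_mul_of_nonneg_left m4 (by positivity))
  have b3 : ‖Y (X e - m e)‖ ≤ K * (ε / (6 * K)) :=
    (Y.le_opNorm _).trans (mul_le_mul hKY m4 (norm_nonneg _) (by linarith))
  have b4 : ‖m (Y e - n e)‖ ≤ 2 * K * (ε / (6 * K)) :=
    (m3 _).trans (mul_le_mul_of_nonneg_left n4 (by positivity))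
  rw [e1, zero_add]
  calc _ ≤ ‖X (Y e - n e) + n (X e - m e)‖ + ‖Y (X e - m e) + m (Y e - n e)‖ := norm_sub_le _ _
    _ ≤ (‖X (Y e - n e)‖ + ‖n (X e - m e)‖) + (‖Y (X e - m e)‖ + ‖m (Y e - n e)‖) :=
      add_le_add (norm_add_le _ _) (norm_add_le _ _)
    _ ≤ (K * (ε / (6 * K)) + 2 * K * (ε / (6 * K))) + (K * (ε / (6 * K)) + 2 * K * (ε / (6 * K))) := by
      gcongr
    _ = ε := by field_simp; ring

/-- It is enough to have the paths for a dense set of vectors. -/
theorem par_of_dense {C : Set (Submodule ℂ H)} {M N : Submodule ℂ H} {S : Set H} (hS : Dense S)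
    (hpar : ∀ e ∈ S, ∀ h ∈ S, ∀ ε > 0, ∃ r ≤ ε, Par C e h M N r) (e h : H) (ε : ℝ) (hε : 0 < ε) :
    ∃ r ≤ ε, Par C e h M N r := by
  have hδ : 0 < Real.sqrt (ε / 16) := by positivity
  obtain ⟨e', he', h1⟩ := Metric.dense_iff.mp hS e _ hδ
  obtain ⟨h', hh', h2⟩ := Metric.dense_iff.mp hS h _ hδ
  rw [Metric.mem_ball, dist_eq_norm] at he' hh'
  obtain ⟨r, hr, p⟩ := hpar e' h1 h' h2 (ε / 4) (by positivity)
  obtain ⟨r', hr', p'⟩ := p.perturb e h
  refine ⟨r', hr'.trans ?_, p'⟩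
  have b1 := inc_norm_le p.le (e - e')
  have b2 := inc_norm_le p.le (h - h')
  rw [norm_sub_rev e e'] at b1
  rw [norm_sub_rev h h'] at b2
  have c1 : ‖inc M N (e - e')‖ ^ 2 ≤ ε / 16 := by
    rw [← Real.sq_sqrt (show 0 ≤ ε / 16 by positivity)]
    exact pow_le_pow_left₀ (norm_nonneg _) (b1.trans he'.le) 2
  have c2 : ‖inc M N (h - h')‖ ^ 2 ≤ ε / 16 := by
    rw [← Real.sq_sqrt (show 0 ≤ ε / 16 by positivity)]
    exact pow_le_pow_left₀ (norm_nonneg _) (b2.trans hh'.le) 2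
  linarith

end Pool.Agent.Helper49.KS
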