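import Pool.Agent.Helper75.KS.GoalsB

namespace Pool.Agent.Helper49.KSB

open Finset
open Pool.Agent.Helper75.KS
open Pool.Agent.Helper89.GP (LX po Ex Pr hh)

/-- few natural numbers in an interval -/
lemma card_icc_le (h t : ℝ) (hh0 : 0 ≤ h) (ht : 0 ≤ t) :
    ((Finset.Icc ⌈h - t⌉₊ ⌊h + t⌋₊).card : ℝ) ≤ 2 * t + 1 := by
  rw [Nat.card_Icc]
  have h1 : ((⌊h + t⌋₊ : ℕ) : ℝ) ≤ h + t := Nat.floor_le (by linarith)
  have h2 : h - t ≤ (⌈h - t⌉₊ : ℝ) := Nat.le_ceil _
  rcases Nat.lt_or_ge (⌊h + t⌋₊ + 1) ⌈h - t⌉₊ with hlt | hge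
  · rw [Nat.sub_eq_zero_of_le hlt.le]
    push_cast
    linarith
  · rw [Nat.cast_sub hge]
    push_cast
    linarith

/-- SCB -/
theorem _root_.Pool.Agent.Helper49.KS.scb (h1 : ScaStmt) (h2 : LxnStmt) : ScbStmt := by
  classical
  intro n R A hR hA hanti
  have hAne : A.Nonempty := by rw [← Finset.card_pos]; omega
  obtain ⟨x, hxA, hx⟩ := h1 n R A hR hAne hanti
  refine ⟨x, hxA, ?_⟩
  have hLne := h2 n R hR
  set L : ℝ := ((LX R).card : ℝ) with hL
  have hLpos : 0 < L := by rw [hL]; exact_mod_cast Finset.card_pos.2 hLne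
  set w : ℝ := (A.card : ℝ) with hw
  have hw10 : 10 ≤ w := by rw [hw]; exact_mod_cast hA
  set h : ℝ := hh R x with hh
  have hh0 : 0 ≤ h := by
    rw [hh]
    unfold Pool.Agent.Helper89.GP.hh Ex
    positivity
  set t : ℝ := w / 4 with ht
  have ht0 : 0 ≤ t := by rw [ht]; linarith
  -- the extensions with x near h
  set N : Finset (Equiv.Perm (Fin n)) := (LX R).filter (fun σ => |(po σ x : ℝ) - h| ≤ t) with hN
  have hNle : (N.card : ℝ) * w ≤ (2 * t + 1) * L := by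
    have hsub : N ⊆ (Finset.Icc ⌈h - t⌉₊ ⌊h + t⌋₊).biUnion
        (fun k => (LX R).filter (fun σ => po σ x = k)) := by
      intro σ hσ
      rw [hN, mem_filter] at hσ
      have h3 := abs_le.1 hσ.2
      rw [mem_biUnion]
      refine ⟨po σ x, ?_, ?_⟩
      · rw [Finset.mem_Icc]
        constructor
        · exact Nat.ceil_le.2 (by linarith)
        · exact Nat.le_floor (by linarith)
      · rw [mem_filter]
        exact ⟨hσ.1, rfl⟩
    have h3 : (N.card : ℝ) ≤ ∑ k ∈ Finset.Icc ⌈h - t⌉₊ ⌊h + t⌋₊,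
        (((LX R).filter (fun σ => po σ x = k)).card : ℝ) := by
      exact_mod_cast (Finset.card_le_card hsub).trans Finset.card_biUnion_le
    calc (N.card : ℝ) * w ≤ (∑ k ∈ Finset.Icc ⌈h - t⌉₊ ⌊h + t⌋₊,
          (((LX R).filter (fun σ => po σ x = k)).card : ℝ)) * w :=
          mul_le_mul_of_nonneg_right h3 (by linarith)
      _ = ∑ k ∈ Finset.Icc ⌈h - t⌉₊ ⌊h + t⌋₊,
          w * (((LX R).filter (fun σ => po σ x = k)).card : ℝ) := by
          rw [mul_comm, Finset.mul_sum]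
      _ ≤ ∑ _k ∈ Finset.Icc ⌈h - t⌉₊ ⌊h + t⌋₊, L := by
          refine Finset.sum_le_sum ?_
          intro k _
          have := hx k
          rw [hw, hL]
          exact_mod_cast this
      _ = ((Finset.Icc ⌈h - t⌉₊ ⌊h + t⌋₊).card : ℝ) * L := by
          rw [Finset.sum_const, nsmul_eq_mul]
      _ ≤ (2 * t + 1) * L := mul_le_mul_of_nonneg_right (card_icc_le h t hh0 ht0) hLpos.le
  have hsum : t * (L - N.card) ≤ ∑ σ ∈ LX R, |(po σ x : ℝ) - h| := by
    have h4 : ∑ σ ∈ LX R, |(po σ x : ℝ) - h| =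
        ∑ σ ∈ N, |(po σ x : ℝ) - h| +
        ∑ σ ∈ (LX R).filter (fun σ => ¬ |(po σ x : ℝ) - h| ≤ t), |(po σ x : ℝ) - h| := by
      rw [hN, Finset.sum_filter_add_sum_filter_not]
    have h5 : (0 : ℝ) ≤ ∑ σ ∈ N, |(po σ x : ℝ) - h| := Finset.sum_nonneg fun _ _ => abs_nonneg _
    have h6 : ((LX R).filter (fun σ => ¬ |(po σ x : ℝ) - h| ≤ t)).card * t ≤
        ∑ σ ∈ (LX R).filter (fun σ => ¬ |(po σ x : ℝ) - h| ≤ t), |(po σ x : ℝ) - h| := by
      rw [← nsmul_eq_mul]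
      refine Finset.card_nsmul_le_sum _ _ _ ?_
      intro σ hσ
      rw [mem_filter, not_le] at hσ
      exact hσ.2.le
    have h7 : (N.card : ℝ) + ((LX R).filter (fun σ => ¬ |(po σ x : ℝ) - h| ≤ t)).card = L := by
      rw [hL, hN]
      exact_mod_cast Finset.card_filter_add_card_filter_not (s := LX R)
        (fun σ => |(po σ x : ℝ) - h| ≤ t)
    rw [h4]
    have h8 : L - N.card = ((LX R).filter (fun σ => ¬ |(po σ x : ℝ) - h| ≤ t)).card := by
      linarith
    rw [h8]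
    linarith
  have hdev : dev R x = (∑ σ ∈ LX R, |(po σ x : ℝ) - h|) / L := rfl
  rw [hdev, le_div_iff₀ hLpos]
  refine le_trans ?_ hsum
  have hwpos : 0 < w := by linarith
  have hNL : (N.card : ℝ) ≤ (2 * t + 1) * L / w := by
    rw [le_div_iff₀ hwpos]; exact hNle
  have h9 : (2 * t + 1) * L / w = L / 2 + L / w := by
    rw [ht]; field_simp; ring
  rw [h9] at hNL
  have h10 : L / w ≤ L / 10 := by
    exact div_le_div_of_nonneg_left hLpos.le (by norm_num) hw10
  have h11 : t * (L - (L / 2 + L / w)) ≤ t * (L - N.card) :=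
    mul_le_mul_of_nonneg_left (by linarith) ht0
  refine le_trans ?_ h11
  have h12 : t * (L - (L / 2 + L / w)) = L * (w / 8 - 1 / 4) := by
    rw [ht]; field_simp; ring
  rw [h12]
  have h13 : w / 10 ≤ w / 8 - 1 / 4 := by linarith
  nlinarith

end Pool.Agent.Helper49.KSB
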