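import Pool.Agent.Helper49.KS.Glue

/-!
The `L²` model of a cyclic subspace of a commutative `*`-algebra of operators.
-/

set_option autoImplicit false

namespace Pool.Agent.Helper49.KS

open scoped InnerProductSpace ComplexConjugate
open MeasureTheory

variable {X : Type*} [TopologicalSpace X] [CompactSpace X] [T2Space X] [MeasurableSpace X]
  [BorelSpace X]
variable {K : Type*} [NormedAddCommGroup K] [InnerProductSpace ℂ K] [CompleteSpace K]

/-- real functions as complex functions -/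
def toC (f : X → ℝ) (hf : Continuous f) : C(X, ℂ) := ⟨fun x => (f x : ℂ), by fun_prop⟩

lemma star_toC (f : X → ℝ) (hf : Continuous f) : star (toC f hf) = toC f hf := by
  ext x; simp [toC]

lemma phi_star (Φ : C(X, ℂ) →⋆ₐ[ℂ] (K →L[ℂ] K)) (f : C(X, ℂ)) (u v : K) :
    ⟪Φ f u, v⟫_ℂ = ⟪u, Φ (star f) v⟫_ℂ := by
  rw [map_star, ContinuousLinearMap.star_eq_adjoint, ContinuousLinearMap.adjoint_inner_right]

/-- the positive functional attached to a vector -/
noncomputable def lam (Φ : C(X, ℂ) →⋆ₐ[ℂ] (K →L[ℂ] K)) (v : K) :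
    CompactlySupportedContinuousMap X ℝ →ₚ[ℝ] ℝ :=
  PositiveLinearMap.mk₀
    { toFun := fun f => (⟪v, Φ (toC f f.continuous) v⟫_ℂ).re
      map_add' := by
        intro f g
        have : toC (f + g : CompactlySupportedContinuousMap X ℝ) (f + g).continuous =
            toC f f.continuous + toC g g.continuous := by
          ext x; simp [toC]
        rw [this, map_add, ContinuousLinearMap.add_apply, inner_add_right, Complex.add_re]
      map_smul' := by
        intro c f
        have : toC (c • f : CompactlySupportedContinuousMap X ℝ) (c • f).continuous =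
            (c : ℂ) • toC f f.continuous := by
          ext x; simp [toC]
        rw [this, map_smul, ContinuousLinearMap.smul_apply, inner_smul_right]
        simp }
    (by
      intro f hf
      have hf' : ∀ x, 0 ≤ f x := fun x => hf x
      have hc : Continuous fun x => Real.sqrt (f x) := Real.continuous_sqrt.comp f.continuous
      have h1 : toC f f.continuous = star (toC _ hc) * toC _ hc := by
        rw [star_toC]
        ext x
        simp only [toC, ContinuousMap.coe_mk, ContinuousMap.mul_apply]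
        rw [← Complex.ofReal_mul, Real.mul_self_sqrt (hf' x)]
      show 0 ≤ (⟪v, Φ (toC f f.continuous) v⟫_ℂ).re
      rw [h1, map_mul]
      show 0 ≤ (⟪v, Φ (star (toC _ hc)) (Φ (toC _ hc) v)⟫_ℂ).re
      rw [← phi_star]
      exact inner_self_nonneg (𝕜 := ℂ))

lemma lam_apply (Φ : C(X, ℂ) →⋆ₐ[ℂ] (K →L[ℂ] K)) (v : K) (f : CompactlySupportedContinuousMap X ℝ) :
    lam Φ v f = (⟪v, Φ (toC f f.continuous) v⟫_ℂ).re := rfl

theorem spec_model (Φ : C(X, ℂ) →⋆ₐ[ℂ] (K →L[ℂ] K)) (v : K) :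
    ∃ (μ : Measure X) (_ : IsFiniteMeasure μ) (U : Lp ℂ 2 μ →L[ℂ] K),
      (∀ w, ‖U w‖ = ‖w‖) ∧ (∃ w, U w = v) ∧
      (∀ E : Submodule ℂ K, (∀ f : C(X, ℂ), ∀ x ∈ E, Φ f x ∈ E) → v ∈ Eᗮ → ∀ w, U w ∈ Eᗮ) ∧
      ∀ h : C(X, ℂ), ∃ m : Lp ℂ 2 μ →L[ℂ] Lp ℂ 2 μ, (∀ w, Φ h (U w) = U (m w)) ∧
        ∀ A : Set X, ∀ f ∈ La μ A, m f ∈ La μ A := by
  set μ : Measure X := RealRMK.rieszMeasure (lam Φ v) with hμ
  haveI hfin : IsFiniteMeasure μ := by
    have : IsFiniteMeasureOnCompacts μ := by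
      rw [hμ]; infer_instance
    exact ⟨isCompact_univ.measure_lt_top⟩
  haveI hreg : μ.Regular := by rw [hμ]; infer_instance
  set J : C(X, ℂ) →ₗ[ℂ] K :=
    { toFun := fun f => Φ f v
      map_add' := by intro f g; rw [map_add]; rfl
      map_smul' := by intro c f; rw [map_smul]; rfl } with hJ
  have hJa : ∀ f, J f = Φ f v := fun _ => rfl
  set e : C(X, ℂ) →ₗ[ℂ] Lp ℂ 2 μ :=
    (ContinuousMap.toLp 2 μ ℂ : C(X, ℂ) →L[ℂ] Lp ℂ 2 μ).toLinearMap with he
  have hea : ∀ f, e f = ContinuousMap.toLp 2 μ ℂ f := fun _ => rfl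
  have hdense : DenseRange e := ContinuousMap.toLp_denseRange ℂ μ ℂ (by norm_num)
  have hnorm : ∀ f, ‖J f‖ = ‖e f‖ := by
    intro f
    have hc : Continuous fun x => ‖f x‖ ^ 2 := by fun_prop
    have h1 : ‖e f‖ ^ 2 = ∫ x, ‖f x‖ ^ 2 ∂μ := by
      rw [norm_sq_Lp]
      apply integral_congr_ae
      filter_upwards [ContinuousMap.coeFn_toLp (p := 2) μ (𝕜 := ℂ) f] with x hx
      rw [hea, hx]
    set F : CompactlySupportedContinuousMap X ℝ :=
      ⟨⟨fun x => ‖f x‖ ^ 2, hc⟩, HasCompactSupport.of_compactSpace _⟩ with hF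
    have h2 : ∫ x, ‖f x‖ ^ 2 ∂μ = lam Φ v F := by
      rw [← RealRMK.integral_rieszMeasure (lam Φ v) F]
      rfl
    have h3 : toC F F.continuous = star f * f := by
      ext x
      show ((‖f x‖ ^ 2 : ℝ) : ℂ) = star (f x) * f x
      rw [Complex.star_def, ← Complex.normSq_eq_conj_mul_self, Complex.normSq_eq_norm_sq]
    have h4 : lam Φ v F = ‖J f‖ ^ 2 := by
      rw [lam_apply, h3, map_mul]
      show (⟪v, Φ (star f) (Φ f v)⟫_ℂ).re = _
      rw [← phi_star, hJa]
      exact inner_self_eq_norm_sq (𝕜 := ℂ) _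
    have h5 : ‖J f‖ ^ 2 = ‖e f‖ ^ 2 := by rw [h1, h2, h4]
    exact (pow_left_inj₀ (norm_nonneg _) (norm_nonneg _) two_ne_zero).mp h5
  set U : Lp ℂ 2 μ →L[ℂ] K := J.extendOfNorm e with hU
  have hUe : ∀ f, U (e f) = Φ f v := by
    intro f
    rw [hU, LinearMap.extendOfNorm_eq hdense ⟨1, fun x => by rw [hnorm, one_mul]⟩]
    exact hJa f
  have hUiso : ∀ w, ‖U w‖ = ‖w‖ := by
    intro w
    refine hdense.induction_on (p := fun w => ‖U w‖ = ‖w‖) w ?_ ?_
    · exact isClosed_eq (by fun_prop) (by fun_prop)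
    · intro f
      rw [hUe, ← hJa, hnorm]
  refine ⟨μ, hfin, U, hUiso, ⟨e 1, ?_⟩, ?_, ?_⟩
  · rw [hUe, map_one]; rfl
  · intro E hE hv w
    refine hdense.induction_on (p := fun w => U w ∈ Eᗮ) w ?_ ?_
    · exact (Submodule.isClosed_orthogonal E).preimage U.continuous
    · intro f
      rw [hUe, Submodule.mem_orthogonal']
      intro x hx
      rw [phi_star]
      exact Submodule.inner_left_of_mem_orthogonal (hE _ _ hx) hv
  · intro h
    set m : Lp ℂ 2 μ →L[ℂ] Lp ℂ 2 μ :=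
      (ContinuousLinearMap.mul ℂ ℂ).holderL μ ⊤ 2 2 (ContinuousMap.toLp ⊤ μ ℂ h) with hm
    have hmc : ∀ w : Lp ℂ 2 μ, (m w : X → ℂ) =ᵐ[μ] fun x => h x * w x := by
      intro w
      have h1 := (ContinuousLinearMap.mul ℂ ℂ).coeFn_holder (r := 2)
        (ContinuousMap.toLp ⊤ μ ℂ h) w
      filter_upwards [h1, ContinuousMap.coeFn_toLp (p := ⊤) μ (𝕜 := ℂ) h] with x h2 h3
      rw [hm]
      show ((ContinuousLinearMap.mul ℂ ℂ).holder 2 (ContinuousMap.toLp ⊤ μ ℂ h) w : X → ℂ) x = _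
      rw [h2, h3]
      rfl
    refine ⟨m, ?_, ?_⟩
    · intro w
      refine hdense.induction_on (p := fun w => Φ h (U w) = U (m w)) w ?_ ?_
      · exact isClosed_eq (by fun_prop) (by fun_prop)
      · intro f
        have h1 : m (e f) = e (h * f) := by
          apply Lp.ext
          filter_upwards [hmc (e f), ContinuousMap.coeFn_toLp (p := 2) μ (𝕜 := ℂ) f,
            ContinuousMap.coeFn_toLp (p := 2) μ (𝕜 := ℂ) (h * f)] with x g1 g2 g3
          rw [g1, hea, hea, g2, g3]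
          rfl
        rw [h1, hUe, hUe, map_mul]
        rfl
    · intro A f hf
      rw [mem_La] at hf ⊢
      filter_upwards [hf, hmc f] with x g1 g2 g3
      rw [g2, g1 g3, mul_zero]

end Pool.Agent.Helper49.KS
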